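import Mathlib

/-! Averages over sign vectors. -/

namespace Pool.Agent.KS6_96.SG

open Finset

/-- the sign of a Boolean -/
def sg (b : Bool) : ℝ := if b then 1 else -1

lemma sg_sq (b : Bool) : sg b * sg b = 1 := by cases b <;> simp [sg]

lemma sum_two {n : ℕ} (f : (Fin (n + 1) → Bool) → ℝ) :
    ∑ e : Fin (n + 1) → Bool, f e =
      ∑ e : Fin n → Bool, (f (Fin.cons true e) + f (Fin.cons false e)) := by
  rw [← (Fin.consEquiv (fun _ : Fin (n + 1) => Bool)).sum_comp]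
  rw [Fintype.sum_prod_type_right]
  refine Finset.sum_congr rfl fun e _ => ?_
  rw [Fintype.sum_bool]
  rfl

lemma X_cons {n : ℕ} (a : Fin (n + 1) → ℝ) (b : Bool) (e : Fin n → Bool) :
    ∑ j, a j * sg ((Fin.cons b e : Fin (n + 1) → Bool) j) =
      a 0 * sg b + ∑ j : Fin n, a j.succ * sg (e j) := by
  rw [Fin.sum_univ_succ]
  simp

lemma second (n : ℕ) (a : Fin n → ℝ) :
    ∑ e : Fin n → Bool, (∑ j, a j * sg (e j)) ^ 2 = 2 ^ n * ∑ j, a j ^ 2 := by
  induction n with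
  | zero => simp
  | succ n ih =>
    rw [sum_two]
    have h : ∀ e : Fin n → Bool,
        (∑ j, a j * sg ((Fin.cons true e : Fin (n + 1) → Bool) j)) ^ 2 +
        (∑ j, a j * sg ((Fin.cons false e : Fin (n + 1) → Bool) j)) ^ 2 =
        2 * a 0 ^ 2 + 2 * (∑ j : Fin n, a j.succ * sg (e j)) ^ 2 := by
      intro e
      rw [X_cons, X_cons]
      simp only [sg, if_true, Bool.false_eq_true, if_false]
      ring
    have e2 : ∑ e : Fin n → Bool, 2 * (∑ j : Fin n, a j.succ * sg (e j)) ^ 2 =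
        2 * ∑ e : Fin n → Bool, (∑ j : Fin n, a j.succ * sg (e j)) ^ 2 := by
      rw [Finset.mul_sum]
    rw [Finset.sum_congr rfl fun e _ => h e, Finset.sum_add_distrib, e2,
      ih (fun j => a j.succ), Fin.sum_univ_succ]
    simp only [Finset.sum_const, Finset.card_univ, Fintype.card_pi, Fintype.card_bool,
      Finset.prod_const, Fintype.card_fin, nsmul_eq_mul]
    push_cast
    ring

lemma fourth (n : ℕ) (a : Fin n → ℝ) :
    ∑ e : Fin n → Bool, (∑ j, a j * sg (e j)) ^ 4 ≤ 3 * 2 ^ n * (∑ j, a j ^ 2) ^ 2 := by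
  induction n with
  | zero => simp
  | succ n ih =>
    rw [sum_two]
    have h : ∀ e : Fin n → Bool,
        (∑ j, a j * sg ((Fin.cons true e : Fin (n + 1) → Bool) j)) ^ 4 +
        (∑ j, a j * sg ((Fin.cons false e : Fin (n + 1) → Bool) j)) ^ 4 =
        2 * a 0 ^ 4 + (12 * a 0 ^ 2) * (∑ j : Fin n, a j.succ * sg (e j)) ^ 2 +
          2 * (∑ j : Fin n, a j.succ * sg (e j)) ^ 4 := by
      intro e
      rw [X_cons, X_cons]
      simp only [sg, if_true, Bool.false_eq_true, if_false]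
      ring
    have e2 : ∑ e : Fin n → Bool, (12 * a 0 ^ 2) * (∑ j : Fin n, a j.succ * sg (e j)) ^ 2 =
        (12 * a 0 ^ 2) * ∑ e : Fin n → Bool, (∑ j : Fin n, a j.succ * sg (e j)) ^ 2 := by
      rw [Finset.mul_sum]
    have e4 : ∑ e : Fin n → Bool, 2 * (∑ j : Fin n, a j.succ * sg (e j)) ^ 4 =
        2 * ∑ e : Fin n → Bool, (∑ j : Fin n, a j.succ * sg (e j)) ^ 4 := by
      rw [Finset.mul_sum]
    rw [Finset.sum_congr rfl fun e _ => h e, Finset.sum_add_distrib, Finset.sum_add_distrib,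
      e2, e4, second n (fun j => a j.succ), Fin.sum_univ_succ]
    have h1 := ih (fun j => a j.succ)
    simp only [Finset.sum_const, Finset.card_univ, Fintype.card_pi, Fintype.card_bool,
      Finset.prod_const, Fintype.card_fin, nsmul_eq_mul]
    set S := ∑ i : Fin n, a i.succ ^ 2 with hS
    have hp : (0 : ℝ) < 2 ^ n := by positivity
    push_cast
    have h2 : (0 : ℝ) ≤ 2 ^ n * a 0 ^ 4 := by positivity
    have e1 : 3 * (2 : ℝ) ^ (n + 1) * (a 0 ^ 2 + S) ^ 2 =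
        6 * 2 ^ n * a 0 ^ 4 + 12 * 2 ^ n * a 0 ^ 2 * S + 2 * (3 * 2 ^ n * S ^ 2) := by
      rw [pow_succ]; ring
    rw [e1]
    nlinarith

/-- Khintchine's inequality with the constant `1 / √3`. -/
lemma khin (n : ℕ) (a : Fin n → ℝ) :
    2 ^ n * (√(∑ j, a j ^ 2) / √3) ≤ ∑ e : Fin n → Bool, |∑ j, a j * sg (e j)| := by
  set A := ∑ j, a j ^ 2 with hA
  have hA0 : 0 ≤ A := Finset.sum_nonneg fun _ _ => sq_nonneg _
  rcases hA0.eq_or_lt with h0 | h0
  · rw [← h0]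
    simp only [Real.sqrt_zero, zero_div, mul_zero]
    exact Finset.sum_nonneg fun _ _ => abs_nonneg _
  set s := √A with hs
  have hs2 : s * s = A := Real.mul_self_sqrt hA0
  have hs0 : 0 < s := Real.sqrt_pos.2 h0
  set t := √3 with ht
  have ht2 : t * t = 3 := Real.mul_self_sqrt (by norm_num)
  have ht0 : 0 < t := Real.sqrt_pos.2 (by norm_num)
  -- pointwise: `|x| ≥ (t / (2 s)) x² - (t / (18 s³)) x⁴`
  have hpt : ∀ x : ℝ, t / (2 * s) * x ^ 2 - t / (18 * s ^ 3) * x ^ 4 ≤ |x| := by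
    intro x
    have hx2 : x ^ 2 = |x| ^ 2 := (sq_abs x).symm
    have hx4 : x ^ 4 = |x| ^ 4 := by
      calc x ^ 4 = (x ^ 2) ^ 2 := by ring
        _ = |x| ^ 4 := by rw [hx2]; ring
    rw [hx2, hx4]
    set y := |x| with hy
    have hy0 : 0 ≤ y := abs_nonneg x
    have key : 18 * s ^ 3 * (y - (t / (2 * s) * y ^ 2 - t / (18 * s ^ 3) * y ^ 4)) =
        y * (18 * s ^ 3 - 9 * t * s ^ 2 * y + t * y ^ 3) := by
      field_simp
      ring
    have h3 : 0 ≤ 18 * s ^ 3 - 9 * t * s ^ 2 * y + t * y ^ 3 := by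
      have e : 18 * s ^ 3 - 9 * t * s ^ 2 * y + t * y ^ 3 =
          (y - t * s) ^ 2 * (t * y + 6 * s) + (t * t - 3) * (-(2 * s * y ^ 2) * 1 + 0) * 0 +
          (18 * s ^ 3 - 9 * t * s ^ 2 * y + t * y ^ 3 - (y - t * s) ^ 2 * (t * y + 6 * s)) := by
        ring
      have e2 : 18 * s ^ 3 - 9 * t * s ^ 2 * y + t * y ^ 3 - (y - t * s) ^ 2 * (t * y + 6 * s) = 0 := by
        have : 18 * s ^ 3 - 9 * t * s ^ 2 * y + t * y ^ 3 - (y - t * s) ^ 2 * (t * y + 6 * s) =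
          (t * t - 3) * (2 * s * y ^ 2 - t * s ^ 2 * y - 6 * s ^ 3) := by ring
        rw [this, ht2]; ring
      rw [e, e2]
      have : 0 ≤ (y - t * s) ^ 2 * (t * y + 6 * s) := by positivity
      linarith
    have h4 : 0 ≤ 18 * s ^ 3 * (y - (t / (2 * s) * y ^ 2 - t / (18 * s ^ 3) * y ^ 4)) := by
      rw [key]; exact mul_nonneg hy0 h3
    have h5 : 0 < 18 * s ^ 3 := by positivity
    have h6 := nonneg_of_mul_nonneg_right h4 h5
    linarith
  have h1 : ∑ e : Fin n → Bool, (t / (2 * s) * (∑ j, a j * sg (e j)) ^ 2 -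
      t / (18 * s ^ 3) * (∑ j, a j * sg (e j)) ^ 4) ≤ ∑ e : Fin n → Bool, |∑ j, a j * sg (e j)| :=
    Finset.sum_le_sum fun e _ => hpt _
  rw [Finset.sum_sub_distrib, ← Finset.mul_sum, ← Finset.mul_sum, second, ← hA] at h1
  have h2 : t / (18 * s ^ 3) * ∑ e : Fin n → Bool, (∑ j, a j * sg (e j)) ^ 4 ≤
      t / (18 * s ^ 3) * (3 * 2 ^ n * A ^ 2) := mul_le_mul_of_nonneg_left (fourth n a) (by positivity)
  refine le_trans ?_ h1
  have h3 : t / (2 * s) * (2 ^ n * A) - t / (18 * s ^ 3) * (3 * 2 ^ n * A ^ 2) =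
      2 ^ n * (s / t) := by
    rw [← hs2]
    have : s / t = t * s / 3 := by
      rw [div_eq_div_iff ht0.ne' (by norm_num)]
      calc s * 3 = s * (t * t) := by rw [ht2]
        _ = _ := by ring
    rw [this]
    field_simp
    ring
  linarith

lemma pair (n : ℕ) (a b : Fin n → ℝ) :
    ∑ e : Fin n → Bool, (∑ j, a j * sg (e j)) * (∑ j, b j * sg (e j)) = 2 ^ n * ∑ j, a j * b j := by
  have h1 := second n (fun j => a j + b j)
  have h2 := second n a
  have h3 := second n b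
  have e1 : ∀ e : Fin n → Bool, (∑ j, (a j + b j) * sg (e j)) ^ 2 =
      (∑ j, a j * sg (e j)) ^ 2 + (∑ j, b j * sg (e j)) ^ 2 +
        2 * ((∑ j, a j * sg (e j)) * (∑ j, b j * sg (e j))) := by
    intro e
    have : ∑ j, (a j + b j) * sg (e j) = (∑ j, a j * sg (e j)) + ∑ j, b j * sg (e j) := by
      rw [← Finset.sum_add_distrib]
      exact Finset.sum_congr rfl fun j _ => by ring
    rw [this]; ring
  rw [Finset.sum_congr rfl fun e _ => e1 e, Finset.sum_add_distrib, Finset.sum_add_distrib, h2, h3,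
    ← Finset.mul_sum] at h1
  have e2 : ∑ j, (a j + b j) ^ 2 = ∑ j, a j ^ 2 + ∑ j, b j ^ 2 + 2 * ∑ j, a j * b j := by
    rw [Finset.mul_sum, ← Finset.sum_add_distrib, ← Finset.sum_add_distrib]
    exact Finset.sum_congr rfl fun j _ => by ring
  rw [e2] at h1
  linarith

/-- The choice of the angle and of the weights. -/
lemma opt {g n G p : ℝ} (hg : 1 ≤ g) (hn : 1 ≤ n) (hG0 : 0 ≤ G) (hG2 : G ≤ 2) (hp : 0 ≤ p)
    (h : 12 / 25 * (g ^ 2 / n) ≤ G ^ 2 - 2 * g * p) :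
    ∃ α β c s : ℝ, α ^ 2 + β ^ 2 = 1 ∧ c ^ 2 + s ^ 2 = 1 ∧
      g + 3 / 2500 * (g ^ 3 / n ^ 2) ≤
        α ^ 2 * (g - (1 - c) * p) + α * β * s * G + β ^ 2 * c := by
  have hg0 : 0 < g := by linarith
  have hn0 : 0 < n := by linarith
  set x := g ^ 2 / (50 * n) with hx
  have hgp : 0 ≤ 2 * g * p := by positivity
  have hG4 : G ^ 2 ≤ 4 := by nlinarith
  have hx50 : g ^ 2 / n = 50 * x := by rw [hx]; field_simp
  rw [hx50] at h
  have hx0 : 0 < x := by positivity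
  have hx1 : x ≤ 1 / 6 := by nlinarith
  set s := √x with hs
  have hs2 : s ^ 2 = x := Real.sq_sqrt hx0.le
  set c := √(1 - x) with hc
  have hc2 : c ^ 2 = 1 - x := Real.sq_sqrt (by linarith)
  have hc0 : 0 ≤ c := Real.sqrt_nonneg _
  have hcge : 1 - x / 2 - x ^ 2 / 2 ≤ c := by
    apply Real.le_sqrt_of_sq_le
    nlinarith [mul_nonneg hx0.le hx0.le, mul_nonneg (mul_nonneg hx0.le hx0.le) hx0.le]
  set β := s * G / (2 * g) with hβ
  have hβ2 : β ^ 2 = x * G ^ 2 / (4 * g ^ 2) := by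
    rw [hβ, div_pow, mul_pow, hs2]; ring
  have hβ1 : β ^ 2 ≤ x := by
    rw [hβ2, div_le_iff₀ (by positivity)]
    have : 1 ≤ g ^ 2 := by nlinarith
    nlinarith
  have hβ0 : 0 ≤ β := by positivity
  set α := √(1 - β ^ 2) with hα
  have hα2 : α ^ 2 = 1 - β ^ 2 := Real.sq_sqrt (by linarith)
  have hαge : 1 - β ^ 2 ≤ α := by
    apply Real.le_sqrt_of_sq_le
    nlinarith [sq_nonneg β]
  refine ⟨α, β, c, s, by rw [hα2]; ring, by rw [hc2, hs2]; ring, ?_⟩
  have e1 : β * s * G = x * G ^ 2 / (2 * g) := by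
    rw [hβ, ← hs2]; field_simp
  have e2 : β ^ 2 * g = x * G ^ 2 / (4 * g) := by
    rw [hβ2]; field_simp
  have hsG : 0 ≤ β * s * G := by positivity
  have i1 : (1 - β ^ 2) * (β * s * G) ≤ α * (β * s * G) := mul_le_mul_of_nonneg_right hαge hsG
  have i2 : β ^ 2 * (β * s * G) ≤ 2 * x ^ 2 / g := by
    rw [e1, hβ2]
    have e3 : x * G ^ 2 / (4 * g ^ 2) * (x * G ^ 2 / (2 * g)) = x ^ 2 * (G ^ 2) ^ 2 / (8 * g ^ 3) := by
      field_simp
      ring
    rw [e3, div_le_div_iff₀ (by positivity) hg0]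
    have h16 : (G ^ 2) ^ 2 ≤ 16 := by nlinarith [sq_nonneg G]
    have hg3 : g ≤ g ^ 3 := by nlinarith [mul_pos hg0 hg0]
    have : x ^ 2 * (G ^ 2) ^ 2 * g ≤ x ^ 2 * 16 * g ^ 3 := by
      apply mul_le_mul _ hg3 hg0.le (by positivity)
      exact mul_le_mul_of_nonneg_left h16 (by positivity)
    linarith
  have hc1 : 0 ≤ 1 - c := by
    have : c ≤ 1 := by
      rw [hc]
      exact (Real.sqrt_le_sqrt (by linarith : 1 - x ≤ 1)).trans (by simp)
    linarith
  have i3 : (1 - c) * p ≤ x / 2 * p + x ^ 2 / 2 * p := by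
    calc (1 - c) * p ≤ (x / 2 + x ^ 2 / 2) * p :=
          mul_le_mul_of_nonneg_right (by linarith) hp
      _ = _ := by ring
  have i4 : p ≤ 2 / g := by
    rw [le_div_iff₀ hg0]; nlinarith
  have i5 : x ^ 2 / 2 * p ≤ x ^ 2 / g := by
    calc x ^ 2 / 2 * p ≤ x ^ 2 / 2 * (2 / g) := mul_le_mul_of_nonneg_left i4 (by positivity)
      _ = x ^ 2 / g := by ring
  have i6 : α ^ 2 * ((1 - c) * p) ≤ (1 - c) * p := by
    have h7 : 0 ≤ (1 - c) * p := mul_nonneg hc1 hp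
    have h8 : α ^ 2 ≤ 1 := by
      rw [hα2]; have := sq_nonneg β; linarith
    calc α ^ 2 * ((1 - c) * p) ≤ 1 * ((1 - c) * p) := mul_le_mul_of_nonneg_right h8 h7
      _ = _ := one_mul _
  have i7 : 0 ≤ β ^ 2 * c := by positivity
  have i8 : x / (4 * g) * (12 / 25 * (50 * x)) ≤ x / (4 * g) * (G ^ 2 - 2 * g * p) :=
    mul_le_mul_of_nonneg_left h (by positivity)
  have e4 : x / (4 * g) * (G ^ 2 - 2 * g * p) = x * G ^ 2 / (4 * g) - x / 2 * p := by
    field_simp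
    ring
  have e5 : x / (4 * g) * (12 / 25 * (50 * x)) = 6 * x ^ 2 / g := by
    field_simp
    ring
  have e6 : 3 / 2500 * (g ^ 3 / n ^ 2) = 3 * x ^ 2 / g := by
    rw [hx]; field_simp
    ring
  have e7 : x * G ^ 2 / (2 * g) = 2 * (x * G ^ 2 / (4 * g)) := by
    field_simp
    ring
  have e8 : 2 * x ^ 2 / g = 2 * (x ^ 2 / g) := by ring
  have e9 : 6 * x ^ 2 / g = 6 * (x ^ 2 / g) := by ring
  have e10 : 3 * x ^ 2 / g = 3 * (x ^ 2 / g) := by ring
  rw [e6, e10]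
  rw [e4, e5, e9] at i8
  rw [e8] at i2
  have fin : α ^ 2 * (g - (1 - c) * p) + α * β * s * G + β ^ 2 * c =
      g - β ^ 2 * g - α ^ 2 * ((1 - c) * p) + α * (β * s * G) + β ^ 2 * c := by
    rw [mul_sub]
    have : α ^ 2 * g = g - β ^ 2 * g := by rw [hα2]; ring
    rw [this]; ring
  rw [fin, e2]
  have i1' : β * s * G - β ^ 2 * (β * s * G) ≤ α * (β * s * G) := by linarith
  rw [e1, e7] at i1'
  rw [e1, e7] at i2
  rw [e1, e7]
  linarith

end Pool.Agent.KS6_96.SG
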