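import Pool.Agent.KS6_96.SG.SN5
import Pool.Agent.KS6_96.SG.Khin

/-! The increments of `r n`. -/

set_option autoImplicit false

open Finset
open scoped Matrix

namespace Pool.Agent.KS6_96.SG

lemma exists_le_avg {n : ℕ} (F : (Fin n → Bool) → ℝ) (c : ℝ) (h : 2 ^ n * c ≤ ∑ e, F e) :
    ∃ e, c ≤ F e := by
  have h1 : ∑ _e : Fin n → Bool, c ≤ ∑ e, F e := by
    rw [Finset.sum_const, Finset.card_univ, nsmul_eq_mul]
    simpa using h
  obtain ⟨e, -, he⟩ := Finset.exists_le_of_sum_le (Finset.univ_nonempty) h1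
  exact ⟨e, he⟩

lemma exists_sign (x : ℝ) : ∃ b : ℝ, (b = 1 ∨ b = -1) ∧ b * x = |x| := by
  rcases le_total 0 x with h | h
  · exact ⟨1, Or.inl rfl, by rw [one_mul, abs_of_nonneg h]⟩
  · exact ⟨-1, Or.inr rfl, by rw [abs_of_nonpos h]; ring⟩

/-- A good direction. -/
lemma direction {n : ℕ} (hn : 1 ≤ n) {M V : Matrix (Fin n) (Fin n) ℝ} {u v : Fin n → ℝ} {g : ℝ}
    (hg : 0 ≤ g) (hM : IsSign M) (hV : Vᵀ * V = 1) (hu : ∑ i, u i * u i = 1)
    (hv : ∑ i, v i * v i = 1) (hval : val M u v V = g) :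
    ∃ k : Fin n → ℝ, ∑ i, k i * k i = 1 ∧
      12 / 25 * (g ^ 2 / n) ≤ (∑ i, |u i * (V *ᵥ k) i| + ∑ j, |v j * k j|) ^ 2 -
        2 * g * qa M u v V k := by
  have hVV : V * Vᵀ = 1 := mul_eq_one_comm.1 hV
  have hn0 : (0 : ℝ) < n := by exact_mod_cast hn
  have hrow : ∀ i, ∑ j, V i j ^ 2 = 1 := by
    intro i
    have : (V * Vᵀ) i i = 1 := by rw [hVV]; simp
    rw [Matrix.mul_apply] at this
    rw [← this]
    exact Finset.sum_congr rfl fun j _ => by rw [Matrix.transpose_apply]; ring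
  have hcol : ∀ j, ∑ i, V i j ^ 2 = 1 := by
    intro j
    have : (Vᵀ * V) j j = 1 := by rw [hV]; simp
    rw [Matrix.mul_apply] at this
    rw [← this]
    exact Finset.sum_congr rfl fun i _ => by rw [Matrix.transpose_apply]; ring
  have hMM : ∀ i j, M i j * M i j = 1 := by
    intro i j; rcases hM i j with h | h <;> rw [h] <;> norm_num
  have hu1 : g ≤ ∑ i, |u i| := by
    rw [← hval]
    unfold val
    refine Finset.sum_le_sum fun i _ => ?_
    have h1 : (∑ j, v j * (M i j * V i j)) ^ 2 ≤ 1 := by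
      have := Finset.sum_mul_sq_le_sq_mul_sq univ v (fun j => M i j * V i j)
      have h2 : ∑ j, v j ^ 2 = 1 := by rw [← hv]; exact Finset.sum_congr rfl fun j _ => by ring
      have h3 : ∑ j, (M i j * V i j) ^ 2 = 1 := by
        rw [← hrow i]
        exact Finset.sum_congr rfl fun j _ => by
          calc (M i j * V i j) ^ 2 = (M i j * M i j) * V i j ^ 2 := by ring
            _ = V i j ^ 2 := by rw [hMM, one_mul]
      rw [h2, h3] at this
      linarith
    have h4 : |∑ j, v j * (M i j * V i j)| ≤ 1 := by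
      rw [← sq_le_one_iff_abs_le_one]; exact h1
    have h5 : ∑ j, u i * M i j * v j * V i j = u i * ∑ j, v j * (M i j * V i j) := by
      rw [Finset.mul_sum]; exact Finset.sum_congr rfl fun j _ => by ring
    rw [h5]
    calc u i * ∑ j, v j * (M i j * V i j) ≤ |u i * ∑ j, v j * (M i j * V i j)| := le_abs_self _
      _ = |u i| * |∑ j, v j * (M i j * V i j)| := abs_mul _ _
      _ ≤ |u i| * 1 := mul_le_mul_of_nonneg_left h4 (abs_nonneg _)
      _ = |u i| := mul_one _
  have hv1 : g ≤ ∑ j, |v j| := by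
    rw [← hval]
    unfold val
    rw [Finset.sum_comm]
    refine Finset.sum_le_sum fun j _ => ?_
    have h1 : (∑ i, u i * (M i j * V i j)) ^ 2 ≤ 1 := by
      have := Finset.sum_mul_sq_le_sq_mul_sq univ u (fun i => M i j * V i j)
      have h2 : ∑ j, u j ^ 2 = 1 := by rw [← hu]; exact Finset.sum_congr rfl fun j _ => by ring
      have h3 : ∑ i, (M i j * V i j) ^ 2 = 1 := by
        rw [← hcol j]
        exact Finset.sum_congr rfl fun i _ => by
          calc (M i j * V i j) ^ 2 = (M i j * M i j) * V i j ^ 2 := by ring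
            _ = V i j ^ 2 := by rw [hMM, one_mul]
      rw [h2, h3] at this
      linarith
    have h4 : |∑ i, u i * (M i j * V i j)| ≤ 1 := by
      rw [← sq_le_one_iff_abs_le_one]; exact h1
    have h5 : ∑ i, u i * M i j * v j * V i j = v j * ∑ i, u i * (M i j * V i j) := by
      rw [Finset.mul_sum]; exact Finset.sum_congr rfl fun j _ => by ring
    rw [h5]
    calc v j * ∑ i, u i * (M i j * V i j) ≤ |v j * ∑ i, u i * (M i j * V i j)| := le_abs_self _
      _ = |v j| * |∑ i, u i * (M i j * V i j)| := abs_mul _ _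
      _ ≤ |v j| * 1 := mul_le_mul_of_nonneg_left h4 (abs_nonneg _)
      _ = |v j| := mul_one _
  set s := √(n : ℝ) with hs
  have hs2 : s * s = n := Real.mul_self_sqrt hn0.le
  have hs0 : 0 < s := Real.sqrt_pos.2 hn0
  set t := √3 with ht
  have ht2 : t * t = 3 := Real.mul_self_sqrt (by norm_num)
  have ht0 : 0 < t := Real.sqrt_pos.2 (by norm_num)
  set kk : (Fin n → Bool) → Fin n → ℝ := fun e j => sg (e j) * s⁻¹ with hkk
  have hk1 : ∀ e, ∑ i, kk e i * kk e i = 1 := by
    intro e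
    have : ∀ i, kk e i * kk e i = (n : ℝ)⁻¹ := by
      intro i
      calc kk e i * kk e i = (sg (e i) * sg (e i)) * (s * s)⁻¹ := by
            rw [hkk]; field_simp
        _ = (n : ℝ)⁻¹ := by rw [sg_sq, hs2, one_mul]
    rw [Finset.sum_congr rfl fun i _ => this i]
    simp
    exact mul_inv_cancel₀ hn0.ne'
  have hVk : ∀ e i, (V *ᵥ kk e) i = s⁻¹ * ∑ j, V i j * sg (e j) := by
    intro e i
    rw [Matrix.mulVec, dotProduct, Finset.mul_sum]
    exact Finset.sum_congr rfl fun j _ => by rw [hkk]; ring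
  set B : (Fin n → Bool) → ℝ := fun e => ∑ i, |u i * (V *ᵥ kk e) i| + ∑ j, |v j * kk e j| with hB
  have hB2 : ∀ e, B e = s⁻¹ * (∑ i, |u i| * |∑ j, V i j * sg (e j)|) + s⁻¹ * ∑ j, |v j| := by
    intro e
    have a1 : ∑ i, |u i * (V *ᵥ kk e) i| = s⁻¹ * ∑ i, |u i| * |∑ j, V i j * sg (e j)| := by
      rw [Finset.mul_sum]
      refine Finset.sum_congr rfl fun i _ => ?_
      rw [hVk, abs_mul, abs_mul, abs_of_pos (inv_pos.2 hs0)]
      ring
    have a2 : ∑ j, |v j * kk e j| = s⁻¹ * ∑ j, |v j| := by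
      rw [Finset.mul_sum]
      refine Finset.sum_congr rfl fun j _ => ?_
      have h1 : |sg (e j)| = 1 := by
        cases e j <;> simp [sg]
      rw [hkk, abs_mul, abs_mul, h1, abs_of_pos (inv_pos.2 hs0)]
      ring
    change ∑ i, |u i * (V *ᵥ kk e) i| + ∑ j, |v j * kk e j| = _
    rw [a1, a2]
  set L : ℝ := s⁻¹ * (g / t + g) with hL
  have hL0 : 0 ≤ L := by positivity
  have hsumB : 2 ^ n * L ≤ ∑ e, B e := by
    rw [Finset.sum_congr rfl fun e _ => hB2 e, Finset.sum_add_distrib, ← Finset.mul_sum,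
      Finset.sum_comm]
    have h1 : ∀ i, |u i| * (2 ^ n * (1 / t)) ≤ ∑ e : Fin n → Bool, |u i| * |∑ j, V i j * sg (e j)| := by
      intro i
      rw [← Finset.mul_sum]
      apply mul_le_mul_of_nonneg_left _ (abs_nonneg _)
      have := khin n (fun j => V i j)
      rw [hrow i, Real.sqrt_one] at this
      exact this
    have h2 : g * (2 ^ n * (1 / t)) ≤
        ∑ i, ∑ e : Fin n → Bool, |u i| * |∑ j, V i j * sg (e j)| := by
      refine le_trans ?_ (Finset.sum_le_sum fun i _ => h1 i)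
      rw [← Finset.sum_mul]
      exact mul_le_mul_of_nonneg_right hu1 (by positivity)
    have h3 : ∑ _e : Fin n → Bool, s⁻¹ * ∑ j, |v j| = 2 ^ n * (s⁻¹ * ∑ j, |v j|) := by
      rw [Finset.sum_const, Finset.card_univ, nsmul_eq_mul]
      simp
    rw [h3, hL]
    have h4 : s⁻¹ * (g * (2 ^ n * (1 / t))) ≤
        s⁻¹ * ∑ i, ∑ e : Fin n → Bool, |u i| * |∑ j, V i j * sg (e j)| :=
      mul_le_mul_of_nonneg_left h2 (by positivity)
    have h5 : 2 ^ n * (s⁻¹ * g) ≤ 2 ^ n * (s⁻¹ * ∑ j, |v j|) :=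
      mul_le_mul_of_nonneg_left (mul_le_mul_of_nonneg_left hv1 (by positivity)) (by positivity)
    have h6 : 2 ^ n * (s⁻¹ * (g / t + g)) = s⁻¹ * (g * (2 ^ n * (1 / t))) + 2 ^ n * (s⁻¹ * g) := by
      ring
    rw [h6]
    linarith
  have hqa : ∑ e, qa M u v V (kk e) = 2 ^ n * (g / n) := by
    have h1 : ∀ e, qa M u v V (kk e) =
        (n : ℝ)⁻¹ * ∑ i, (∑ j, V i j * sg (e j)) * (∑ j, (u i * M i j * v j) * sg (e j)) := by
      intro e
      unfold qa
      rw [Finset.mul_sum]
      refine Finset.sum_congr rfl fun i _ => ?_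
      rw [hVk e i]
      set X := ∑ j, V i j * sg (e j)
      have hss : s⁻¹ * s⁻¹ = (n : ℝ)⁻¹ := by rw [← mul_inv, hs2]
      have h2 : ∀ j, u i * M i j * v j * (s⁻¹ * X * kk e j) =
          (n : ℝ)⁻¹ * X * ((u i * M i j * v j) * sg (e j)) := by
        intro j
        change u i * M i j * v j * (s⁻¹ * X * (sg (e j) * s⁻¹)) = _
        rw [← hss]; ring
      rw [Finset.sum_congr rfl fun j _ => h2 j, ← Finset.mul_sum]
      ring
    rw [Finset.sum_congr rfl fun e _ => h1 e, ← Finset.mul_sum, Finset.sum_comm,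
      Finset.sum_congr rfl fun i _ => pair n (fun j => V i j) (fun j => u i * M i j * v j),
      ← Finset.mul_sum]
    have h2 : ∑ i, ∑ j, V i j * (u i * M i j * v j) = g := by
      rw [← hval]
      unfold val
      exact Finset.sum_congr rfl fun i _ => Finset.sum_congr rfl fun j _ => by ring
    rw [h2]
    field_simp
  obtain ⟨e, he⟩ := exists_le_avg (fun e => 2 * L * B e - L ^ 2 - 2 * g * qa M u v V (kk e))
    (L ^ 2 - 2 * g * (g / n)) (by
      rw [Finset.sum_sub_distrib, Finset.sum_sub_distrib, ← Finset.mul_sum, ← Finset.mul_sum, hqa]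
      have h1 : ∑ _e : Fin n → Bool, L ^ 2 = 2 ^ n * L ^ 2 := by
        rw [Finset.sum_const, Finset.card_univ, nsmul_eq_mul]
        simp
      rw [h1]
      have h2 : 2 * L * (2 ^ n * L) ≤ 2 * L * ∑ e, B e :=
        mul_le_mul_of_nonneg_left hsumB (by positivity)
      nlinarith)
  refine ⟨kk e, hk1 e, ?_⟩
  have h1 : 2 * L * B e - L ^ 2 ≤ B e ^ 2 := by nlinarith [sq_nonneg (B e - L)]
  have h2 : L ^ 2 - 2 * g * (g / n) = (g ^ 2 / n) * ((1 / t + 1) ^ 2 - 2) := by
    rw [hL, ← hs2]; field_simp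
  have h3 : 12 / 25 ≤ (1 / t + 1) ^ 2 - 2 := by
    have h4 : (1 / t + 1) ^ 2 - 2 = 1 / 3 + 2 * (1 / t) - 1 := by
      have : (1 / t) ^ 2 = 1 / 3 := by rw [div_pow, sq t, ht2]; norm_num
      calc (1 / t + 1) ^ 2 - 2 = (1 / t) ^ 2 + 2 * (1 / t) - 1 := by ring
        _ = _ := by rw [this]
    have h5 : t ≤ 1.735 := by
      rw [ht, Real.sqrt_le_left (by norm_num)]; norm_num
    have h6 : 1 / 1.735 ≤ 1 / t := one_div_le_one_div_of_le ht0 h5
    rw [h4]
    norm_num at h6 ⊢
    linarith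
  have h7 : g ^ 2 / n * (12 / 25) ≤ (g ^ 2 / n) * ((1 / t + 1) ^ 2 - 2) :=
    mul_le_mul_of_nonneg_left h3 (by positivity)
  have he' : L ^ 2 - 2 * g * (g / n) ≤ 2 * L * B e - L ^ 2 - 2 * g * qa M u v V (kk e) := he
  have : (∑ i, |u i * (V *ᵥ kk e) i| + ∑ j, |v j * kk e j|) = B e := rfl
  rw [this]
  linarith

/-- The increments: `r (n + 1) ≥ r n + (3 / 2500) (r n) ^ 3 / n ^ 2`. -/
theorem r_growth (n : ℕ) (hn : 1 ≤ n) :
    r n + 3 / 2500 * (r n ^ 3 / (n : ℝ) ^ 2) ≤ r (n + 1) := by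
  obtain ⟨-, M, V, u, v, hM, hV, hu, hv, h1, hval, hmax⟩ := r_spec n hn
  obtain ⟨-, -, -, -, -, -, -, -, -, -, -, hmax'⟩ := r_spec (n + 1) (by omega)
  have e : Fin n ⊕ Unit ≃ Fin (n + 1) := Fintype.equivOfCardEq (by simp)
  have hn1 : (1 : ℝ) ≤ n := by exact_mod_cast hn
  have hbord : ∀ (M' V' : Matrix (Fin n ⊕ Unit) (Fin n ⊕ Unit) ℝ) (u' v' : Fin n ⊕ Unit → ℝ),
      IsSign M' → V'ᵀ * V' = 1 → ∑ i, u' i * u' i = 1 → ∑ i, v' i * v' i = 1 →
      val M' u' v' V' ≤ r (n + 1) := by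
    intro M' V' u' v' hM' hV' hu' hv'
    have h2 := hmax' (M'.submatrix e.symm e.symm) (V'.submatrix e.symm e.symm) (u' ∘ e.symm)
      (v' ∘ e.symm) (fun i j => hM' _ _) (by
        rw [Matrix.transpose_submatrix, Matrix.submatrix_mul_equiv, hV',
          Matrix.submatrix_one_equiv]) (by
        rw [← hu']
        exact Equiv.sum_comp e.symm (fun i => u' i * u' i)) (by
        rw [← hv']
        exact Equiv.sum_comp e.symm (fun i => v' i * v' i))
    have h3 : val (M'.submatrix e.symm e.symm) (u' ∘ e.symm) (v' ∘ e.symm)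
        (V'.submatrix e.symm e.symm) = val M' u' v' V' := by
      unfold val
      rw [← Equiv.sum_comp e.symm (fun i => ∑ j, u' i * M' i j * v' j * V' i j)]
      refine Finset.sum_congr rfl fun i _ => ?_
      rw [← Equiv.sum_comp e.symm (fun j => u' (e.symm i) * M' (e.symm i) j * v' j *
        V' (e.symm i) j)]
      rfl
    rw [h3] at h2
    exact h2
  obtain ⟨k, hk, hdir⟩ := direction hn (by linarith : (0 : ℝ) ≤ r n) hM hV hu hv hval
  -- the quadratic form is nonnegative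
  set A : Matrix (Fin n) (Fin n) ℝ := Matrix.of fun i j => u i * M i j * v j with hA
  have hpr : ∀ V' : Matrix (Fin n) (Fin n) ℝ, pr V' A = val M u v V' := by
    intro V'
    unfold pr val
    exact Finset.sum_congr rfl fun i _ => Finset.sum_congr rfl fun j _ => by
      rw [hA, Matrix.of_apply]; ring
  have hq0 : 0 ≤ qa M u v V k := by
    have h2 := quad_nonneg_of_max hV (A := A) (fun V' hV' => by
      rw [hpr, hpr, hval]
      exact hmax M V' u v hM hV' hu hv) k
    have h3 : k ⬝ᵥ ((Vᵀ * A) *ᵥ k) = qa M u v V k := by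
      rw [← Matrix.mulVec_mulVec, Matrix.dotProduct_mulVec, Matrix.vecMul_transpose]
      unfold qa
      rw [dotProduct]
      refine Finset.sum_congr rfl fun i _ => ?_
      have h4 : (A *ᵥ k) i = ∑ j, u i * M i j * v j * k j := by
        rw [Matrix.mulVec, dotProduct]
        rfl
      rw [h4, Finset.mul_sum]
      exact Finset.sum_congr rfl fun j _ => by ring
    rw [h3] at h2
    exact h2
  set G := ∑ i, |u i * (V *ᵥ k) i| + ∑ j, |v j * k j| with hG
  have hG0 : 0 ≤ G := add_nonneg (Finset.sum_nonneg fun _ _ => abs_nonneg _)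
    (Finset.sum_nonneg fun _ _ => abs_nonneg _)
  have hcs : ∀ x y : Fin n → ℝ, ∑ i, x i * x i = 1 → ∑ i, y i * y i = 1 →
      ∑ i, |x i * y i| ≤ 1 := by
    intro x y hx hy
    have h2 : ∀ i, |x i * y i| ≤ (x i * x i + y i * y i) / 2 := by
      intro i
      rw [abs_le]
      constructor <;> nlinarith [sq_nonneg (x i + y i), sq_nonneg (x i - y i)]
    refine (Finset.sum_le_sum fun i _ => h2 i).trans ?_
    rw [← Finset.sum_div, Finset.sum_add_distrib, hx, hy]
    norm_num
  have hVk : ∑ i, (V *ᵥ k) i * (V *ᵥ k) i = 1 := by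
    have h2 : (V *ᵥ k) ⬝ᵥ (V *ᵥ k) = k ⬝ᵥ k := by
      rw [Matrix.dotProduct_mulVec, Matrix.vecMul_mulVec, hV, Matrix.vecMul_one]
    rw [← hk]
    exact h2
  have hG2 : G ≤ 2 := by
    have h2 := hcs u (V *ᵥ k) hu hVk
    have h3 := hcs v k hv hk
    linarith
  obtain ⟨α, β, c, s, hαβ, hcs2, hopt⟩ := opt h1 hn1 hG0 hG2 hq0 hdir
  -- signs
  choose b hb1 hb2 using fun i => exists_sign (u i * (V *ᵥ k) i)
  choose b' hb1' hb2' using fun j => exists_sign (v j * k j)
  have hlh : lh u v V b (fun j => -b' j) k = G := by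
    unfold lh
    rw [hG, sub_eq_add_neg, ← Finset.sum_neg_distrib]
    congr 1
    · refine Finset.sum_congr rfl fun i _ => ?_
      rw [← hb2 i]; ring
    · refine Finset.sum_congr rfl fun j _ => ?_
      rw [← hb2' j]; ring
  have hval2 := val_bord M V u v b (fun j => -b' j) k α β c s
  rw [hval, hlh] at hval2
  have h5 := hbord (Matrix.fromBlocks M (Matrix.of fun i _ => b i) (Matrix.of fun _ j => -b' j)
        (Matrix.of fun (_ _ : Unit) => (1 : ℝ)))
      (Matrix.fromBlocks V 0 0 (1 : Matrix Unit Unit ℝ) * rotR k c s)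
      (Sum.elim (fun i => α * u i) (fun _ => β)) (Sum.elim (fun i => α * v i) (fun _ => β))
      (by
        intro x y
        rcases x with i | i <;> rcases y with j | j
        · exact hM i j
        · exact hb1 i
        · rcases hb1' j with h | h
          · right; change -b' j = -1; rw [h]
          · left; change -b' j = 1; rw [h]; norm_num
        · left; rfl)
      (bord_orth hV hk hcs2)
      (by
        rw [Fintype.sum_sum_type]
        simp only [Sum.elim_inl, Sum.elim_inr, Finset.univ_unique, Finset.sum_singleton]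
        have : ∑ i, α * u i * (α * u i) = α ^ 2 * ∑ i, u i * u i := by
          rw [Finset.mul_sum]; exact Finset.sum_congr rfl fun i _ => by ring
        rw [this, hu, mul_one, ← sq]; exact hαβ)
      (by
        rw [Fintype.sum_sum_type]
        simp only [Sum.elim_inl, Sum.elim_inr, Finset.univ_unique, Finset.sum_singleton]
        have : ∑ i, α * v i * (α * v i) = α ^ 2 * ∑ i, v i * v i := by
          rw [Finset.mul_sum]; exact Finset.sum_congr rfl fun i _ => by ring
        rw [this, hv, mul_one, ← sq]; exact hαβ)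
  rw [hval2] at h5
  linarith

end Pool.Agent.KS6_96.SG
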