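import Mathlib

/-!
# Schur multiplier norms of sign matrices: definitions

`M ⊙ A` is the entrywise (Schur, Hadamard) product of Mathlib and, with the instances opened below,
`‖A‖` is the operator norm of the matrix `A` on Euclidean `ℂ^n`.
-/

set_option autoImplicit false

open scoped Matrix Matrix.Norms.L2Operator

namespace Pool.Agent.KS6_96.SG

/-- All entries of the real matrix `M` are `1` or `-1`. -/
def IsSign {ι κ : Type*} (M : Matrix ι κ ℝ) : Prop := ∀ i j, M i j = 1 ∨ M i j = -1

/-- The Schur multiplier norm of an `n × n` complex matrix: the supremum of the operator norms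
`‖M ⊙ A‖` over the `n × n` complex matrices `A` of operator norm at most one. -/
noncomputable def schurNorm {n : ℕ} (M : Matrix (Fin n) (Fin n) ℂ) : ℝ :=
  sSup {x : ℝ | ∃ A : Matrix (Fin n) (Fin n) ℂ, ‖A‖ ≤ 1 ∧ x = ‖M ⊙ A‖}

/-- The Schur multiplier norms of the `n × n` sign matrices. -/
def signNorms (n : ℕ) : Set ℝ :=
  {x : ℝ | ∃ M : Matrix (Fin n) (Fin n) ℝ, IsSign M ∧ x = schurNorm (M.map (fun t => (t : ℂ)))}

/-- `r_n`, the maximum (supremum) of the Schur multiplier norms of the `n × n` sign matrices. -/
noncomputable def r (n : ℕ) : ℝ := sSup (signNorms n)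

end Pool.Agent.KS6_96.SG
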