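import Pool.Agent.KS6_96.SG.SN1
import Pool.Agent.KS6_96.SG.SNDefs

/-!
# Sign matrices and Schur multiplier norms, II: bordering strictly increases the maximum
-/

set_option autoImplicit false

open Finset
open scoped Matrix

namespace Pool.Agent.KS6_96.SG

variable {ι : Type*} [Fintype ι] [DecidableEq ι]

/-- Every quadratic form in signs is somewhere at least its trace. -/
theorem exists_signs {α : Type*} (S : Finset α) (N : α → α → ℝ) :
    ∃ s : α → ℝ, (∀ a, s a = 1 ∨ s a = -1) ∧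
      ∑ a ∈ S, N a a ≤ ∑ a ∈ S, ∑ a' ∈ S, s a * s a' * N a a' := by
  classical
  induction S using Finset.induction with
  | empty => exact ⟨fun _ => 1, fun _ => Or.inl rfl, by simp⟩
  | insert a0 S ha ih =>
    obtain ⟨s, hs, hle⟩ := ih
    set X := ∑ a ∈ S, s a * (N a a0 + N a0 a) with hX
    set σ : ℝ := if 0 ≤ X then 1 else -1 with hσ
    have hσ1 : σ = 1 ∨ σ = -1 := by
      by_cases h : 0 ≤ X
      · left; rw [hσ, if_pos h]
      · right; rw [hσ, if_neg h]
    have hσX : 0 ≤ σ * X := by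
      by_cases h : 0 ≤ X
      · rw [hσ, if_pos h]; linarith
      · rw [hσ, if_neg h]; linarith
    have hσσ : σ * σ = 1 := by rcases hσ1 with h | h <;> rw [h] <;> norm_num
    refine ⟨Function.update s a0 σ, ?_, ?_⟩
    · intro a
      by_cases h : a = a0
      · rw [h, Function.update_self]; exact hσ1
      · rw [Function.update_of_ne h]; exact hs a
    · have hne : ∀ a ∈ S, Function.update s a0 σ a = s a := fun a haS =>
        Function.update_of_ne (fun h => ha (by rw [← h]; exact haS)) _ _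
      rw [Finset.sum_insert ha, Finset.sum_insert ha, Finset.sum_insert ha]
      rw [Function.update_self, hσσ]
      have e1 : ∑ x ∈ S, σ * Function.update s a0 σ x * N a0 x = ∑ x ∈ S, σ * s x * N a0 x :=
        Finset.sum_congr rfl fun x hx => by rw [hne x hx]
      have e2 : ∑ x ∈ S, ∑ x' ∈ insert a0 S, Function.update s a0 σ x *
          Function.update s a0 σ x' * N x x' =
          ∑ x ∈ S, (s x * σ * N x a0 + ∑ x' ∈ S, s x * s x' * N x x') := by
        refine Finset.sum_congr rfl fun x hx => ?_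
        rw [Finset.sum_insert ha, Function.update_self, hne x hx]
        congr 1
        exact Finset.sum_congr rfl fun x' hx' => by rw [hne x' hx']
      rw [e1, e2, Finset.sum_add_distrib]
      have e3 : ∑ x ∈ S, σ * s x * N a0 x + ∑ x ∈ S, s x * σ * N x a0 = σ * X := by
        rw [hX, Finset.mul_sum, ← Finset.sum_add_distrib]
        exact Finset.sum_congr rfl fun x _ => by ring
      linarith

/-- A unit vector maximising a linear functional is parallel to it. -/
theorem stat {u w : ι → ℝ} {r : ℝ} (hr : 0 ≤ r) (hu : ∑ i, u i * u i = 1)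
    (h : ∑ i, u i * w i = r)
    (hmax : ∀ u' : ι → ℝ, ∑ i, u' i * u' i = 1 → ∑ i, u' i * w i ≤ r) (i : ι) :
    w i = r * u i := by
  have hW : ∑ i, w i * w i ≤ r ^ 2 := by
    by_cases h0 : ∑ i, w i * w i = 0
    · rw [h0]; positivity
    · have hpos : 0 < ∑ i, w i * w i :=
        lt_of_le_of_ne (Finset.sum_nonneg fun i _ => mul_self_nonneg _) (Ne.symm h0)
      set s := Real.sqrt (∑ i, w i * w i) with hs
      have hs0 : 0 < s := Real.sqrt_pos.2 hpos
      have hss : s * s = ∑ i, w i * w i := Real.mul_self_sqrt hpos.le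
      have h1 := hmax (fun i => s⁻¹ * w i) (by
        have : ∀ i, s⁻¹ * w i * (s⁻¹ * w i) = (s * s)⁻¹ * (w i * w i) := by
          intro i; rw [mul_inv]; ring
        rw [Finset.sum_congr rfl fun i _ => this i, ← Finset.mul_sum, hss, inv_mul_cancel₀ h0])
      have h2 : ∑ i, s⁻¹ * w i * w i = s := by
        rw [Finset.sum_congr rfl fun i _ => mul_assoc s⁻¹ (w i) (w i), ← Finset.mul_sum, ← hss]
        field_simp
      rw [h2] at h1
      rw [← hss]
      nlinarith
  have hz : ∑ i, (w i - r * u i) * (w i - r * u i) = ∑ i, w i * w i - r ^ 2 := by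
    have : ∀ i, (w i - r * u i) * (w i - r * u i) =
        w i * w i - 2 * r * (u i * w i) + r ^ 2 * (u i * u i) := fun i => by ring
    rw [Finset.sum_congr rfl fun i _ => this i, Finset.sum_add_distrib, Finset.sum_sub_distrib,
      ← Finset.mul_sum, ← Finset.mul_sum, h, hu]
    ring
  have hz0 : ∑ i, (w i - r * u i) * (w i - r * u i) = 0 :=
    le_antisymm (by rw [hz]; linarith) (Finset.sum_nonneg fun i _ => mul_self_nonneg _)
  have := (Finset.sum_eq_zero_iff_of_nonneg
    (fun i _ => mul_self_nonneg (w i - r * u i))).1 hz0 i (Finset.mem_univ i)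
  have := mul_self_eq_zero.1 this
  linarith

/-- The bordering rotation. -/
noncomputable def rotR (k : ι → ℝ) (c s : ℝ) : Matrix (ι ⊕ Unit) (ι ⊕ Unit) ℝ :=
  Matrix.fromBlocks (1 - (1 - c) • Matrix.vecMulVec k k) (Matrix.of fun i _ => s * k i)
    (Matrix.of fun _ j => -(s * k j)) (Matrix.of fun _ _ => c)

theorem rotR_orth {k : ι → ℝ} (hk : ∑ i, k i * k i = 1) {c s : ℝ} (hcs : c ^ 2 + s ^ 2 = 1) :
    (rotR k c s)ᵀ * rotR k c s = 1 := by
  have hkk : k ⬝ᵥ k = 1 := hk
  have hm : Matrix.vecMulVec k k * Matrix.vecMulVec k k = Matrix.vecMulVec k k := by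
    rw [Matrix.vecMulVec_mul_vecMulVec, hkk]; simp
  rw [rotR, Matrix.fromBlocks_transpose, Matrix.fromBlocks_multiply, ← Matrix.fromBlocks_one]
  congr 1
  · rw [Matrix.transpose_sub, Matrix.transpose_one, Matrix.transpose_smul,
      Matrix.transpose_vecMulVec]
    have e1 : (Matrix.of fun (_ : Unit) j => -(s * k j))ᵀ * (Matrix.of fun (_ : Unit) j =>
        -(s * k j)) = (s ^ 2) • Matrix.vecMulVec k k := by
      ext i j
      simp [Matrix.mul_apply, Matrix.vecMulVec_apply]
      ring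
    rw [e1]
    simp only [sub_mul, mul_sub, one_mul, mul_one, smul_mul_assoc, mul_smul_comm, hm]
    have h0 : (-2 * (1 - c) + (1 - c) * (1 - c) + s ^ 2) = 0 := by nlinarith
    have h1 : (1 : Matrix ι ι ℝ) - (1 - c) • Matrix.vecMulVec k k -
        (1 - c) • (Matrix.vecMulVec k k - (1 - c) • Matrix.vecMulVec k k) +
        s ^ 2 • Matrix.vecMulVec k k = 1 + (-2 * (1 - c) + (1 - c) * (1 - c) + s ^ 2) •
          Matrix.vecMulVec k k := by module
    rw [h1, h0, zero_smul, add_zero]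
  · ext i j
    simp only [Matrix.add_apply, Matrix.mul_apply, Matrix.transpose_apply, Matrix.sub_apply,
      Matrix.smul_apply, Matrix.of_apply, Matrix.vecMulVec_apply, smul_eq_mul,
      Matrix.one_apply, Finset.univ_unique, Finset.sum_singleton, Matrix.zero_apply]
    have e : ∀ x, ((if x = i then (1 : ℝ) else 0) - (1 - c) * (k x * k i)) * (s * k x) =
        (if x = i then s * k x else 0) - (1 - c) * s * k i * (k x * k x) := by
      intro x; split_ifs <;> ring
    rw [Finset.sum_congr rfl fun x _ => e x, Finset.sum_sub_distrib, Finset.sum_ite_eq',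
      if_pos (Finset.mem_univ i), ← Finset.mul_sum, hk]
    ring
  · ext i j
    simp only [Matrix.add_apply, Matrix.mul_apply, Matrix.transpose_apply, Matrix.sub_apply,
      Matrix.smul_apply, Matrix.of_apply, Matrix.vecMulVec_apply, smul_eq_mul,
      Matrix.one_apply, Finset.univ_unique, Finset.sum_singleton, Matrix.zero_apply]
    have e : ∀ x, (s * k x) * ((if x = j then (1 : ℝ) else 0) - (1 - c) * (k x * k j)) =
        (if x = j then s * k x else 0) - (1 - c) * s * k j * (k x * k x) := by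
      intro x; split_ifs <;> ring
    rw [Finset.sum_congr rfl fun x _ => e x, Finset.sum_sub_distrib, Finset.sum_ite_eq',
      if_pos (Finset.mem_univ j), ← Finset.mul_sum, hk]
    ring
  · ext i j
    simp only [Matrix.add_apply, Matrix.mul_apply, Matrix.transpose_apply, Matrix.of_apply,
      Finset.univ_unique, Finset.sum_singleton]
    have e : ∀ x, (s * k x) * (s * k x) = s ^ 2 * (k x * k x) := fun x => by ring
    rw [Finset.sum_congr rfl fun x _ => e x, ← Finset.mul_sum, hk]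
    have : (1 : Matrix Unit Unit ℝ) i j = 1 := by
      have : i = j := Subsingleton.elim _ _
      rw [this]; simp
    rw [this]
    nlinarith

/-- The bordered orthogonal matrix. -/
theorem bordV (V : Matrix ι ι ℝ) (k : ι → ℝ) (c s : ℝ) :
    Matrix.fromBlocks V 0 0 (1 : Matrix Unit Unit ℝ) * rotR k c s =
      Matrix.fromBlocks (V - (1 - c) • Matrix.vecMulVec (V *ᵥ k) k)
        (Matrix.of fun i _ => s * (V *ᵥ k) i) (Matrix.of fun _ j => -(s * k j))
        (Matrix.of fun _ _ => c) := by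
  rw [rotR, Matrix.fromBlocks_multiply]
  congr 1
  · rw [mul_sub, mul_one, mul_smul_comm, Matrix.mul_vecMulVec, Matrix.zero_mul, add_zero]
  · ext i j
    simp only [Matrix.add_apply, Matrix.mul_apply, Matrix.of_apply, Matrix.zero_apply, zero_mul,
      Finset.sum_const_zero, add_zero, Matrix.mulVec, dotProduct]
    rw [Finset.mul_sum]
    exact Finset.sum_congr rfl fun x _ => by ring
  · rw [Matrix.zero_mul, Matrix.one_mul, zero_add]
  · rw [Matrix.zero_mul, Matrix.one_mul, zero_add]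

theorem bord_orth {V : Matrix ι ι ℝ} (hV : Vᵀ * V = 1) {k : ι → ℝ} (hk : ∑ i, k i * k i = 1)
    {c s : ℝ} (hcs : c ^ 2 + s ^ 2 = 1) :
    (Matrix.fromBlocks V 0 0 (1 : Matrix Unit Unit ℝ) * rotR k c s)ᵀ *
      (Matrix.fromBlocks V 0 0 (1 : Matrix Unit Unit ℝ) * rotR k c s) = 1 := by
  rw [Matrix.transpose_mul, Matrix.mul_assoc, ← Matrix.mul_assoc
    (Matrix.fromBlocks V 0 0 (1 : Matrix Unit Unit ℝ))ᵀ]
  have : (Matrix.fromBlocks V 0 0 (1 : Matrix Unit Unit ℝ))ᵀ *
      Matrix.fromBlocks V 0 0 (1 : Matrix Unit Unit ℝ) = 1 := by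
    rw [Matrix.fromBlocks_transpose, Matrix.fromBlocks_multiply]
    simp [hV]
  rw [this, Matrix.one_mul, rotR_orth hk hcs]

/-- The quadratic form `∑ u i * M i j * v j * (V k) i * k j`. -/
noncomputable def qa (M : Matrix ι ι ℝ) (u v : ι → ℝ) (V : Matrix ι ι ℝ) (k : ι → ℝ) : ℝ :=
  ∑ i, ∑ j, u i * M i j * v j * ((V *ᵥ k) i * k j)

/-- The linear form. -/
noncomputable def lh (u v : ι → ℝ) (V : Matrix ι ι ℝ) (b b' : ι → ℝ) (k : ι → ℝ) : ℝ :=
  ∑ i, u i * b i * (V *ᵥ k) i - ∑ j, b' j * v j * k j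

theorem val_bord (M V : Matrix ι ι ℝ) (u v b b' k : ι → ℝ) (α β c s : ℝ) :
    val (Matrix.fromBlocks M (Matrix.of fun i _ => b i) (Matrix.of fun _ j => b' j)
        (Matrix.of fun (_ _ : Unit) => (1 : ℝ)))
      (Sum.elim (fun i => α * u i) (fun _ => β)) (Sum.elim (fun i => α * v i) (fun _ => β))
      (Matrix.fromBlocks V 0 0 (1 : Matrix Unit Unit ℝ) * rotR k c s) =
      α ^ 2 * (val M u v V - (1 - c) * qa M u v V k) + α * β * s * lh u v V b b' k +
        β ^ 2 * c := by
  rw [bordV]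
  unfold val qa lh
  simp only [Fintype.sum_sum_type, Sum.elim_inl, Sum.elim_inr, Matrix.fromBlocks_apply₁₁,
    Matrix.fromBlocks_apply₁₂, Matrix.fromBlocks_apply₂₁, Matrix.fromBlocks_apply₂₂,
    Matrix.of_apply, Finset.univ_unique, Finset.sum_singleton, Matrix.sub_apply,
    Matrix.smul_apply, Matrix.vecMulVec_apply, smul_eq_mul]
  have e1 : ∀ i, ∑ j, α * u i * M i j * (α * v j) * (V i j - (1 - c) * ((V *ᵥ k) i * k j)) =
      α ^ 2 * (∑ j, u i * M i j * v j * V i j -
        (1 - c) * ∑ j, u i * M i j * v j * ((V *ᵥ k) i * k j)) := by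
    intro i
    rw [Finset.mul_sum, ← Finset.sum_sub_distrib, Finset.mul_sum]
    exact Finset.sum_congr rfl fun j _ => by ring
  rw [Finset.sum_add_distrib, Finset.sum_congr rfl fun i _ => e1 i, ← Finset.mul_sum,
    Finset.sum_sub_distrib, ← Finset.mul_sum]
  have e2 : ∑ i, α * u i * b i * β * (s * (V *ᵥ k) i) =
      α * β * s * ∑ i, u i * b i * (V *ᵥ k) i := by
    rw [Finset.mul_sum]; exact Finset.sum_congr rfl fun i _ => by ring
  have e3 : ∑ j, β * b' j * (α * v j) * -(s * k j) = - (α * β * s * ∑ j, b' j * v j * k j) := by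
    rw [Finset.mul_sum, ← Finset.sum_neg_distrib]
    exact Finset.sum_congr rfl fun i _ => by ring
  rw [e2, e3]
  ring

/-- Consequence of the non-existence of a better bordered matrix, for unit vectors `k`. -/
theorem quad_ineq_unit {M V : Matrix ι ι ℝ} {u v b b' k : ι → ℝ} {r : ℝ} (hr : 1 ≤ r)
    (hM : IsSign M) (hV : Vᵀ * V = 1) (hu : ∑ i, u i * u i = 1) (hv : ∑ i, v i * v i = 1)
    (hb : ∀ i, b i = 1 ∨ b i = -1) (hb' : ∀ i, b' i = 1 ∨ b' i = -1)
    (hval : val M u v V = r)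
    (hbord : ∀ (M' V' : Matrix (ι ⊕ Unit) (ι ⊕ Unit) ℝ) (u' v' : ι ⊕ Unit → ℝ), IsSign M' →
      V'ᵀ * V' = 1 → ∑ i, u' i * u' i = 1 → ∑ i, v' i * v' i = 1 → val M' u' v' V' ≤ r)
    (hk : ∑ i, k i * k i = 1) :
    (2 * r + 3) * lh u v V b b' k ^ 2 ≤ 4 * (r ^ 2 + r - 1) * qa M u v V k := by
  set c : ℝ := (r + 1) / (r + 2) with hc
  have hr2 : (0 : ℝ) < r + 2 := by linarith
  have hc1 : c < 1 := by rw [hc, div_lt_one hr2]; linarith
  have hc0 : 0 < c := by rw [hc]; apply div_pos <;> linarith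
  set s : ℝ := Real.sqrt (1 - c ^ 2) with hs
  have hss : s ^ 2 = 1 - c ^ 2 := Real.sq_sqrt (by nlinarith)
  set a := qa M u v V k
  set h := lh u v V b b' k
  have key : ∀ t : ℝ, r - (1 - c) * a + t * s * h + t ^ 2 * c ≤ r * (1 + t ^ 2) := by
    intro t
    have hT : (0 : ℝ) < 1 + t ^ 2 := by positivity
    set q := Real.sqrt (1 + t ^ 2) with hq
    have hqq : q * q = 1 + t ^ 2 := Real.mul_self_sqrt hT.le
    have hq0 : 0 < q := Real.sqrt_pos.2 hT
    have hαβ : (q⁻¹) * (q⁻¹) + (t * q⁻¹) * (t * q⁻¹) = 1 := by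
      have : (q⁻¹) * (q⁻¹) + (t * q⁻¹) * (t * q⁻¹) = (1 + t ^ 2) * (q * q)⁻¹ := by
        rw [mul_inv]; ring
      rw [this, hqq, mul_inv_cancel₀ hT.ne']
    have h1 := hbord (Matrix.fromBlocks M (Matrix.of fun i _ => b i) (Matrix.of fun _ j => b' j)
        (Matrix.of fun (_ _ : Unit) => (1 : ℝ)))
      (Matrix.fromBlocks V 0 0 (1 : Matrix Unit Unit ℝ) * rotR k c s)
      (Sum.elim (fun i => q⁻¹ * u i) (fun _ => t * q⁻¹))
      (Sum.elim (fun i => q⁻¹ * v i) (fun _ => t * q⁻¹)) ?_ (bord_orth hV hk (by linarith)) ?_ ?_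
    · rw [val_bord, hval] at h1
      have h2 : (q⁻¹) ^ 2 * (r - (1 - c) * a) + q⁻¹ * (t * q⁻¹) * s * h + (t * q⁻¹) ^ 2 * c =
          (r - (1 - c) * a + t * s * h + t ^ 2 * c) / (1 + t ^ 2) := by
        rw [← hqq]; field_simp
      rw [h2, div_le_iff₀ hT] at h1
      linarith
    · rintro (i | i) (j | j)
      · exact hM i j
      · exact hb i
      · exact hb' j
      · left; rfl
    · simp only [Fintype.sum_sum_type, Sum.elim_inl, Sum.elim_inr, Finset.univ_unique,
        Finset.sum_singleton]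
      have : ∀ i, q⁻¹ * u i * (q⁻¹ * u i) = (q⁻¹ * q⁻¹) * (u i * u i) := fun i => by ring
      rw [Finset.sum_congr rfl fun i _ => this i, ← Finset.mul_sum, hu, mul_one]
      exact hαβ
    · simp only [Fintype.sum_sum_type, Sum.elim_inl, Sum.elim_inr, Finset.univ_unique,
        Finset.sum_singleton]
      have : ∀ i, q⁻¹ * v i * (q⁻¹ * v i) = (q⁻¹ * q⁻¹) * (v i * v i) := fun i => by ring
      rw [Finset.sum_congr rfl fun i _ => this i, ← Finset.mul_sum, hv, mul_one]
      exact hαβ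
  have hrc : 0 < r - c := by linarith
  have h3 := key (s * h / (2 * (r - c)))
  have h4 : s ^ 2 * h ^ 2 ≤ 4 * (r - c) * ((1 - c) * a) := by
    have e1 : s * h / (2 * (r - c)) * s * h = s ^ 2 * h ^ 2 / (2 * (r - c)) := by ring
    have e2 : (s * h / (2 * (r - c))) ^ 2 = s ^ 2 * h ^ 2 / (4 * (r - c) ^ 2) := by
      field_simp; ring
    rw [e1, e2] at h3
    have h5 : s ^ 2 * h ^ 2 / (2 * (r - c)) - s ^ 2 * h ^ 2 / (4 * (r - c) ^ 2) * (r - c) ≤
        (1 - c) * a := by nlinarith [h3]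
    have h6 : s ^ 2 * h ^ 2 / (2 * (r - c)) - s ^ 2 * h ^ 2 / (4 * (r - c) ^ 2) * (r - c) =
        s ^ 2 * h ^ 2 / (4 * (r - c)) := by
      field_simp; ring
    rw [h6, div_le_iff₀ (by positivity)] at h5
    nlinarith [h5]
  rw [hss] at h4
  have h7 : (1 + c) * h ^ 2 ≤ 4 * (r - c) * a := by
    have : (1 - c) * ((1 + c) * h ^ 2) ≤ (1 - c) * (4 * (r - c) * a) := by nlinarith [h4]
    exact le_of_mul_le_mul_left this (by linarith)
  have h8 : 1 + c = (2 * r + 3) / (r + 2) := by rw [hc]; field_simp; ring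
  have h9 : r - c = (r ^ 2 + r - 1) / (r + 2) := by rw [hc]; field_simp; ring
  rw [h8, h9] at h7
  have h10 : (2 * r + 3) / (r + 2) * h ^ 2 = ((2 * r + 3) * h ^ 2) / (r + 2) := by ring
  have h11 : 4 * ((r ^ 2 + r - 1) / (r + 2)) * a = (4 * (r ^ 2 + r - 1) * a) / (r + 2) := by ring
  rw [h10, h11, div_le_div_iff_of_pos_right hr2] at h7
  exact h7

theorem qa_smul (M V : Matrix ι ι ℝ) (u v k : ι → ℝ) (t : ℝ) :
    qa M u v V (t • k) = t ^ 2 * qa M u v V k := by
  unfold qa
  rw [Finset.mul_sum]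
  refine Finset.sum_congr rfl fun i _ => ?_
  rw [Finset.mul_sum]
  refine Finset.sum_congr rfl fun j _ => ?_
  rw [Matrix.mulVec_smul]
  simp only [Pi.smul_apply, smul_eq_mul]
  ring

theorem lh_smul (V : Matrix ι ι ℝ) (u v b b' k : ι → ℝ) (t : ℝ) :
    lh u v V b b' (t • k) = t * lh u v V b b' k := by
  unfold lh
  rw [mul_sub, Finset.mul_sum, Finset.mul_sum, Matrix.mulVec_smul]
  simp only [Pi.smul_apply, smul_eq_mul]
  congr 1
  · exact Finset.sum_congr rfl fun i _ => by ring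
  · exact Finset.sum_congr rfl fun i _ => by ring

theorem quad_ineq {M V : Matrix ι ι ℝ} {u v b b' : ι → ℝ} {r : ℝ} (hr : 1 ≤ r)
    (hM : IsSign M) (hV : Vᵀ * V = 1) (hu : ∑ i, u i * u i = 1) (hv : ∑ i, v i * v i = 1)
    (hb : ∀ i, b i = 1 ∨ b i = -1) (hb' : ∀ i, b' i = 1 ∨ b' i = -1)
    (hval : val M u v V = r)
    (hbord : ∀ (M' V' : Matrix (ι ⊕ Unit) (ι ⊕ Unit) ℝ) (u' v' : ι ⊕ Unit → ℝ), IsSign M' →
      V'ᵀ * V' = 1 → ∑ i, u' i * u' i = 1 → ∑ i, v' i * v' i = 1 → val M' u' v' V' ≤ r)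
    (k : ι → ℝ) :
    (2 * r + 3) * lh u v V b b' k ^ 2 ≤ 4 * (r ^ 2 + r - 1) * qa M u v V k := by
  by_cases h0 : ∑ i, k i * k i = 0
  · have hk : k = 0 := by
      funext i
      have := (Finset.sum_eq_zero_iff_of_nonneg (fun i _ => mul_self_nonneg (k i))).1 h0 i
        (Finset.mem_univ i)
      simpa using this
    rw [hk]
    simp [qa, lh]
  · have hpos : 0 < ∑ i, k i * k i :=
      lt_of_le_of_ne (Finset.sum_nonneg fun i _ => mul_self_nonneg _) (Ne.symm h0)
    set s := Real.sqrt (∑ i, k i * k i) with hs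
    have hs0 : 0 < s := Real.sqrt_pos.2 hpos
    have hss : s * s = ∑ i, k i * k i := Real.mul_self_sqrt hpos.le
    have h1 := quad_ineq_unit (b := b) (b' := b') (k := s⁻¹ • k) hr hM hV hu hv hb hb' hval hbord
      (by
        simp only [Pi.smul_apply, smul_eq_mul]
        have : ∀ i, s⁻¹ * k i * (s⁻¹ * k i) = (s * s)⁻¹ * (k i * k i) := by
          intro i; rw [mul_inv]; ring
        rw [Finset.sum_congr rfl fun i _ => this i, ← Finset.mul_sum, hss,
          inv_mul_cancel₀ h0])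
    rw [qa_smul, lh_smul] at h1
    have h2 : (2 * r + 3) * (s⁻¹ * lh u v V b b' k) ^ 2 =
        (s⁻¹) ^ 2 * ((2 * r + 3) * lh u v V b b' k ^ 2) := by ring
    have h3 : 4 * (r ^ 2 + r - 1) * ((s⁻¹) ^ 2 * qa M u v V k) =
        (s⁻¹) ^ 2 * (4 * (r ^ 2 + r - 1) * qa M u v V k) := by ring
    rw [h2, h3] at h1
    exact le_of_mul_le_mul_left h1 (by positivity)

end Pool.Agent.KS6_96.SG
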