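import Pool.Agent.KS6_96.SG.SN2

/-!
# Sign matrices and Schur multiplier norms, III: the contradiction
-/

set_option autoImplicit false

open Finset
open scoped Matrix

namespace Pool.Agent.KS6_96.SG

variable {ι : Type*} [Fintype ι] [DecidableEq ι]

/-- Cauchy-Schwarz for a positive definite matrix and its inverse. -/
theorem cs_inv {N : Matrix ι ι ℝ} (hN : N.PosDef) (x : ι → ℝ) :
    (x ⬝ᵥ x) ^ 2 ≤ (x ⬝ᵥ (N *ᵥ x)) * (x ⬝ᵥ (N⁻¹ *ᵥ x)) := by
  set y := N⁻¹ *ᵥ x with hy
  have hdet : IsUnit N.det := (Matrix.isUnit_iff_isUnit_det N).1 hN.isUnit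
  have hNy : N *ᵥ y = x := by
    rw [hy, Matrix.mulVec_mulVec, Matrix.mul_nonsing_inv _ hdet, Matrix.one_mulVec]
  have hsymm : Nᵀ = N := by
    have := hN.1
    rwa [Matrix.IsHermitian, Matrix.conjTranspose_eq_transpose_of_trivial] at this
  have hyx : y ⬝ᵥ (N *ᵥ x) = x ⬝ᵥ x := by
    rw [Matrix.dotProduct_mulVec, ← Matrix.mulVec_transpose, hsymm, hNy]
  have hpos : ∀ z : ι → ℝ, 0 ≤ z ⬝ᵥ (N *ᵥ z) := by
    intro z
    have := hN.posSemidef.dotProduct_mulVec_nonneg z
    simpa using this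
  have hq : ∀ t : ℝ, 0 ≤ x ⬝ᵥ (N *ᵥ x) * (t * t) + (2 * (x ⬝ᵥ x)) * t + x ⬝ᵥ y := by
    intro t
    have h1 := hpos (t • x + y)
    rw [Matrix.mulVec_add, Matrix.mulVec_smul, dotProduct_add, add_dotProduct, add_dotProduct,
      dotProduct_smul, dotProduct_smul, smul_dotProduct, smul_dotProduct, hNy, hyx] at h1
    simp only [smul_eq_mul] at h1
    rw [dotProduct_comm y x] at h1
    nlinarith [h1]
  have := discrim_le_zero hq
  unfold discrim at this
  nlinarith [this]

/-- The vectors whose signed sums are the linear forms. -/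
noncomputable def Lv (u v : ι → ℝ) (V : Matrix ι ι ℝ) : ι ⊕ ι → ι → ℝ
  | Sum.inl i => fun j => u i * V i j
  | Sum.inr j => Pi.single j (-(v j))

theorem lh_eq (u v : ι → ℝ) (V : Matrix ι ι ℝ) (s : ι ⊕ ι → ℝ) (k : ι → ℝ) :
    lh u v V (fun i => s (Sum.inl i)) (fun j => s (Sum.inr j)) k =
      (∑ a, s a • Lv u v V a) ⬝ᵥ k := by
  unfold lh
  rw [sum_dotProduct, Fintype.sum_sum_type, sub_eq_add_neg, ← Finset.sum_neg_distrib]
  congr 1
  · refine Finset.sum_congr rfl fun i _ => ?_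
    simp only [Lv, dotProduct, Matrix.mulVec, Pi.smul_apply, smul_eq_mul]
    rw [Finset.mul_sum]
    exact Finset.sum_congr rfl fun j _ => by ring
  · refine Finset.sum_congr rfl fun j _ => ?_
    simp only [Lv, smul_dotProduct, smul_eq_mul, single_dotProduct]
    ring

/-- The core of the argument: a maximal sign matrix can be bordered to a strictly better one. -/
theorem core {M V : Matrix ι ι ℝ} {u v : ι → ℝ} {r : ℝ} (hr : 1 ≤ r)
    (hM : IsSign M) (hV : Vᵀ * V = 1) (hu : ∑ i, u i * u i = 1) (hv : ∑ i, v i * v i = 1)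
    (hval : val M u v V = r)
    (hmax : ∀ u' v' : ι → ℝ, ∑ i, u' i * u' i = 1 → ∑ i, v' i * v' i = 1 → val M u' v' V ≤ r)
    (hbord : ∀ (M' V' : Matrix (ι ⊕ Unit) (ι ⊕ Unit) ℝ) (u' v' : ι ⊕ Unit → ℝ), IsSign M' →
      V'ᵀ * V' = 1 → ∑ i, u' i * u' i = 1 → ∑ i, v' i * v' i = 1 → val M' u' v' V' ≤ r) :
    False := by
  have hVV : V * Vᵀ = 1 := mul_eq_one_comm.1 hV
  have hr0 : (0 : ℝ) ≤ r := by linarith
  -- stationarity in `u`
  set w : ι → ℝ := fun i => ∑ j, M i j * v j * V i j with hw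
  have hwv : ∀ u' : ι → ℝ, ∑ i, u' i * w i = val M u' v V := by
    intro u'
    unfold val
    refine Finset.sum_congr rfl fun i _ => ?_
    rw [hw, Finset.mul_sum]
    exact Finset.sum_congr rfl fun j _ => by ring
  have hsu : ∀ i, w i = r * u i := stat hr0 hu (by rw [hwv, hval])
    (fun u' hu' => by rw [hwv]; exact hmax u' v hu' hv)
  -- stationarity in `v`
  set w' : ι → ℝ := fun j => ∑ i, u i * M i j * V i j with hw'
  have hwu : ∀ v' : ι → ℝ, ∑ j, v' j * w' j = val M u v' V := by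
    intro v'
    unfold val
    rw [Finset.sum_comm]
    refine Finset.sum_congr rfl fun j _ => ?_
    rw [hw', Finset.mul_sum]
    exact Finset.sum_congr rfl fun i _ => by ring
  have hsv : ∀ j, w' j = r * v j := stat hr0 hv (by rw [hwu, hval])
    (fun v' hv' => by rw [hwu]; exact hmax u v' hu hv')
  have hMM : ∀ i j, M i j * M i j = 1 := by
    intro i j; rcases hM i j with h | h <;> rw [h] <;> norm_num
  -- rows and columns of `V`
  have hrow : ∀ i, ∑ j, V i j * V i j = 1 := by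
    intro i
    have : (V * Vᵀ) i i = 1 := by rw [hVV]; simp
    rw [Matrix.mul_apply] at this
    simpa using this
  have hcol : ∀ j, ∑ i, V i j * V i j = 1 := by
    intro j
    have : (Vᵀ * V) j j = 1 := by rw [hV]; simp
    rw [Matrix.mul_apply] at this
    simpa using this
  -- bounds `r^2 u_i^2 ≤ 1`
  have hub : ∀ i, r ^ 2 * (u i * u i) ≤ 1 := by
    intro i
    have h1 : w i ^ 2 ≤ (∑ j, V i j ^ 2) * ∑ j, (M i j * v j) ^ 2 := by
      have := Finset.sum_mul_sq_le_sq_mul_sq Finset.univ (fun j => V i j) (fun j => M i j * v j)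
      have e : w i = ∑ j, V i j * (M i j * v j) := Finset.sum_congr rfl fun j _ => by ring
      rw [e]; exact this
    have h2 : ∑ j, V i j ^ 2 = 1 := by
      rw [← hrow i]; exact Finset.sum_congr rfl fun j _ => by ring
    have h3 : ∑ j, (M i j * v j) ^ 2 = 1 := by
      rw [← hv]; exact Finset.sum_congr rfl fun j _ => by
        rw [mul_pow, pow_two, hMM]; ring
    rw [h2, h3, hsu i] at h1
    nlinarith [h1]
  have hvb : ∀ j, r ^ 2 * (v j * v j) ≤ 1 := by
    intro j
    have h1 : w' j ^ 2 ≤ (∑ i, V i j ^ 2) * ∑ i, (M i j * u i) ^ 2 := by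
      have := Finset.sum_mul_sq_le_sq_mul_sq Finset.univ (fun i => V i j) (fun i => M i j * u i)
      have e : w' j = ∑ i, V i j * (M i j * u i) := Finset.sum_congr rfl fun i _ => by ring
      rw [e]; exact this
    have h2 : ∑ i, V i j ^ 2 = 1 := by
      rw [← hcol j]; exact Finset.sum_congr rfl fun i _ => by ring
    have h3 : ∑ i, (M i j * u i) ^ 2 = 1 := by
      rw [← hu]; exact Finset.sum_congr rfl fun i _ => by
        rw [mul_pow, pow_two, hMM]; ring
    rw [h2, h3, hsv j] at h1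
    nlinarith [h1]
  -- the matrix `P` and its regularised symmetric part
  set A : Matrix ι ι ℝ := Matrix.of fun i j => u i * M i j * v j with hA
  have hqa : ∀ k, qa M u v V k = k ⬝ᵥ ((Vᵀ * A) *ᵥ k) := by
    intro k
    rw [← Matrix.mulVec_mulVec, Matrix.dotProduct_mulVec, ← Matrix.mulVec_transpose,
      Matrix.transpose_transpose]
    unfold qa
    simp only [dotProduct, Matrix.mulVec, hA, Matrix.of_apply]
    refine Finset.sum_congr rfl fun i _ => ?_
    rw [Finset.mul_sum]
    exact Finset.sum_congr rfl fun j _ => by ring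
  have hqa0 : ∀ k, 0 ≤ qa M u v V k := by
    intro k
    have h1 := quad_ineq (b := fun _ => 1) (b' := fun _ => 1) hr hM hV hu hv
      (fun _ => Or.inl rfl) (fun _ => Or.inl rfl) hval hbord k
    have h2 : 0 ≤ 4 * (r ^ 2 + r - 1) * qa M u v V k := le_trans (by positivity) h1
    have h3 : 0 < 4 * (r ^ 2 + r - 1) := by nlinarith
    exact nonneg_of_mul_nonneg_right h2 h3
  set δ : ℝ := 1 / (2 * r * (r + 1)) with hδ
  have hδ0 : 0 < δ := by rw [hδ]; positivity
  set N : Matrix ι ι ℝ := (1 / 2 : ℝ) • (Vᵀ * A + (Vᵀ * A)ᵀ) + δ • 1 with hN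
  have hNq : ∀ k, k ⬝ᵥ (N *ᵥ k) = qa M u v V k + δ * (k ⬝ᵥ k) := by
    intro k
    rw [hN, Matrix.add_mulVec, dotProduct_add, Matrix.smul_mulVec, Matrix.add_mulVec,
      dotProduct_smul, dotProduct_add, Matrix.smul_mulVec, Matrix.one_mulVec, dotProduct_smul,
      hqa k]
    have : k ⬝ᵥ ((Vᵀ * A)ᵀ *ᵥ k) = k ⬝ᵥ ((Vᵀ * A) *ᵥ k) := by
      rw [Matrix.mulVec_transpose, dotProduct_comm, ← Matrix.dotProduct_mulVec]
    rw [this]
    simp only [smul_eq_mul]
    ring
  have hNpd : N.PosDef := by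
    refine Matrix.PosDef.of_dotProduct_mulVec_pos ?_ ?_
    · rw [Matrix.IsHermitian, Matrix.conjTranspose_eq_transpose_of_trivial, hN,
        Matrix.transpose_add, Matrix.transpose_smul, Matrix.transpose_smul, Matrix.transpose_add,
        Matrix.transpose_transpose, Matrix.transpose_one, add_comm (Vᵀ * A)ᵀ]
    · intro k hk
      have h1 : star k ⬝ᵥ (N *ᵥ k) = k ⬝ᵥ (N *ᵥ k) := by simp
      rw [h1, hNq]
      have h2 : 0 < k ⬝ᵥ k := by
        have h3 : 0 ≤ k ⬝ᵥ k := Finset.sum_nonneg fun i _ => mul_self_nonneg _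
        refine lt_of_le_of_ne h3 fun h => hk ?_
        exact dotProduct_self_eq_zero.1 h.symm
      nlinarith [hqa0 k, mul_pos hδ0 h2]
  set W := N⁻¹ with hW
  -- choose signs
  obtain ⟨s, hs, hle⟩ := exists_signs (Finset.univ : Finset (ι ⊕ ι))
    (fun a a' => Lv u v V a ⬝ᵥ (W *ᵥ Lv u v V a'))
  set g : ι → ℝ := ∑ a, s a • Lv u v V a with hg
  have hgW : ∑ a, ∑ a', s a * s a' * (Lv u v V a ⬝ᵥ (W *ᵥ Lv u v V a')) = g ⬝ᵥ (W *ᵥ g) := by
    rw [hg, Matrix.mulVec_sum, sum_dotProduct]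
    refine Finset.sum_congr rfl fun a _ => ?_
    rw [dotProduct_sum]
    refine Finset.sum_congr rfl fun a' _ => ?_
    rw [Matrix.mulVec_smul, smul_dotProduct, dotProduct_smul]
    simp only [smul_eq_mul]
    ring
  rw [hgW] at hle
  set q := g ⬝ᵥ (W *ᵥ g) with hq
  have hdet : IsUnit N.det := (Matrix.isUnit_iff_isUnit_det N).1 hNpd.isUnit
  have hNk : N *ᵥ (W *ᵥ g) = g := by
    rw [Matrix.mulVec_mulVec, hW, Matrix.mul_nonsing_inv _ hdet, Matrix.one_mulVec]
  have hqle : (2 * r + 3) * q ≤ 4 * (r ^ 2 + r - 1) := by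
    have h1 := quad_ineq (b := fun i => s (Sum.inl i)) (b' := fun i => s (Sum.inr i)) hr hM hV hu
      hv (fun i => hs _) (fun i => hs _) hval hbord (W *ᵥ g)
    rw [lh_eq, ← hg, ← hq] at h1
    have h2 : qa M u v V (W *ᵥ g) ≤ q := by
      have h3 := hNq (W *ᵥ g)
      rw [hNk] at h3
      have h4 : (W *ᵥ g) ⬝ᵥ g = q := by rw [hq, dotProduct_comm]
      rw [h4] at h3
      have h5 : 0 ≤ (W *ᵥ g) ⬝ᵥ (W *ᵥ g) := Finset.sum_nonneg fun i _ => mul_self_nonneg _
      nlinarith [mul_nonneg hδ0.le h5]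
    have h3 : 0 < 4 * (r ^ 2 + r - 1) := by nlinarith
    have hq0 : 0 ≤ q := le_trans (hqa0 _) h2
    by_cases hq1 : q = 0
    · rw [hq1]; linarith
    · have hqp : 0 < q := lt_of_le_of_ne hq0 (Ne.symm hq1)
      have h4 : (2 * r + 3) * q ^ 2 ≤ 4 * (r ^ 2 + r - 1) * q := by nlinarith [h1, h2, h3]
      have h5 : q * ((2 * r + 3) * q) ≤ q * (4 * (r ^ 2 + r - 1)) := by nlinarith [h4]
      exact le_of_mul_le_mul_left h5 hqp
  -- lower bounds for the diagonal terms
  have hr1 : 0 < 1 / r + δ := by positivity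
  have hinl : ∀ i, (u i * u i) / (1 / r + δ) ≤
      Lv u v V (Sum.inl i) ⬝ᵥ (W *ᵥ Lv u v V (Sum.inl i)) := by
    intro i
    set x : ι → ℝ := fun j => V i j with hx
    have hL : Lv u v V (Sum.inl i) = u i • x := by
      funext j; simp [Lv, hx]
    rw [hL, Matrix.mulVec_smul, smul_dotProduct, dotProduct_smul]
    simp only [smul_eq_mul]
    have hxx : x ⬝ᵥ x = 1 := hrow i
    have h1 := cs_inv hNpd x
    rw [hxx, hNq, hxx] at h1
    have hVx : V *ᵥ x = Pi.single i 1 := by
      funext l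
      have : (V * Vᵀ) l i = (1 : Matrix ι ι ℝ) l i := by rw [hVV]
      rw [Matrix.mul_apply] at this
      simp only [Matrix.mulVec, dotProduct, hx, Matrix.transpose_apply] at this ⊢
      rw [this, Matrix.one_apply]
      simp [Pi.single_apply]
    have h2 : qa M u v V x = r * (u i * u i) := by
      unfold qa
      rw [hVx]
      have e : ∀ l, ∑ j, u l * M l j * v j * ((Pi.single i (1 : ℝ) : ι → ℝ) l * x j) =
          (if l = i then u i * w i else 0) := by
        intro l
        by_cases h : l = i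
        · rw [if_pos h, h, hw, Finset.mul_sum]
          refine Finset.sum_congr rfl fun j _ => ?_
          simp only [Pi.single_eq_same, hx]
          ring
        · rw [if_neg h]
          refine Finset.sum_eq_zero fun j _ => ?_
          rw [Pi.single_eq_of_ne h]
          ring
      rw [Finset.sum_congr rfl fun l _ => e l, Finset.sum_ite_eq', if_pos (Finset.mem_univ i),
        hsu i]
      ring
    rw [h2] at h1
    have h3 : r * (u i * u i) + δ * 1 ≤ 1 / r + δ := by
      have : r * (u i * u i) ≤ 1 / r := by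
        rw [le_div_iff₀ (by linarith)]
        nlinarith [hub i]
      linarith
    have h4 : 0 < r * (u i * u i) + δ * 1 := by
      have := mul_self_nonneg (u i)
      positivity
    have h5 : 1 / (1 / r + δ) ≤ x ⬝ᵥ (W *ᵥ x) := by
      rw [div_le_iff₀ hr1]
      have h6 : 0 ≤ x ⬝ᵥ (W *ᵥ x) := by
        by_contra hneg
        push Not at hneg
        nlinarith [mul_neg_of_pos_of_neg h4 hneg]
      nlinarith [mul_le_mul_of_nonneg_right h3 h6]
    have h7 : u i * u i / (1 / r + δ) = u i * (u i * (1 / (1 / r + δ))) := by ring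
    rw [h7]
    have h8 : u i * (u i * (1 / (1 / r + δ))) = (u i * u i) * (1 / (1 / r + δ)) := by ring
    have h9 : u i * (u i * (x ⬝ᵥ (W *ᵥ x))) = (u i * u i) * (x ⬝ᵥ (W *ᵥ x)) := by ring
    rw [h8, h9]
    exact mul_le_mul_of_nonneg_left h5 (mul_self_nonneg _)
  have hinr : ∀ j, (v j * v j) / (1 / r + δ) ≤
      Lv u v V (Sum.inr j) ⬝ᵥ (W *ᵥ Lv u v V (Sum.inr j)) := by
    intro j
    set x : ι → ℝ := Pi.single j 1 with hx
    have hL : Lv u v V (Sum.inr j) = (-(v j)) • x := by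
      funext l
      simp only [Lv, hx, Pi.smul_apply, Pi.single_apply, smul_eq_mul]
      split_ifs <;> ring
    rw [hL, Matrix.mulVec_smul, smul_dotProduct, dotProduct_smul]
    simp only [smul_eq_mul]
    have hxx : x ⬝ᵥ x = 1 := by rw [hx]; simp
    have h1 := cs_inv hNpd x
    rw [hxx, hNq, hxx] at h1
    have h2 : qa M u v V x = r * (v j * v j) := by
      unfold qa
      have e : ∀ i, ∑ l, u i * M i l * v l * ((V *ᵥ x) i * x l) = v j * (u i * M i j * V i j) := by
        intro i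
        rw [Finset.sum_eq_single j]
        · simp only [hx, Pi.single_eq_same, Matrix.mulVec_single]
          simp
          ring
        · intro l _ hl
          rw [hx, Pi.single_eq_of_ne hl]; ring
        · intro h; exact absurd (Finset.mem_univ j) h
      rw [Finset.sum_congr rfl fun i _ => e i, ← Finset.mul_sum]
      have : ∑ i, u i * M i j * V i j = w' j := rfl
      rw [this, hsv j]; ring
    rw [h2] at h1
    have h3 : r * (v j * v j) + δ * 1 ≤ 1 / r + δ := by
      have : r * (v j * v j) ≤ 1 / r := by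
        rw [le_div_iff₀ (by linarith)]
        nlinarith [hvb j]
      linarith
    have h4 : 0 < r * (v j * v j) + δ * 1 := by
      have := mul_self_nonneg (v j)
      positivity
    have h5 : 1 / (1 / r + δ) ≤ x ⬝ᵥ (W *ᵥ x) := by
      rw [div_le_iff₀ hr1]
      have h6 : 0 ≤ x ⬝ᵥ (W *ᵥ x) := by
        by_contra hneg
        push Not at hneg
        nlinarith [mul_neg_of_pos_of_neg h4 hneg]
      nlinarith [mul_le_mul_of_nonneg_right h3 h6]
    have h7 : v j * v j / (1 / r + δ) = (v j * v j) * (1 / (1 / r + δ)) := by ring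
    have h9 : -v j * (-v j * (x ⬝ᵥ (W *ᵥ x))) = (v j * v j) * (x ⬝ᵥ (W *ᵥ x)) := by ring
    rw [h7, h9]
    exact mul_le_mul_of_nonneg_left h5 (mul_self_nonneg _)
  have hsum : 2 / (1 / r + δ) ≤ q := by
    refine le_trans ?_ hle
    rw [Fintype.sum_sum_type]
    have h1 := Finset.sum_le_sum fun i (_ : i ∈ Finset.univ) => hinl i
    have h2 := Finset.sum_le_sum fun i (_ : i ∈ Finset.univ) => hinr i
    rw [← Finset.sum_div, hu] at h1
    rw [← Finset.sum_div, hv] at h2
    have h3 : (2 : ℝ) / (1 / r + δ) = 1 / (1 / r + δ) + 1 / (1 / r + δ) := by ring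
    rw [h3]
    exact add_le_add h1 h2
  have h2 : 1 / r + δ = (2 * r + 3) / (2 * r * (r + 1)) := by
    rw [hδ]; field_simp; ring
  rw [h2] at hsum
  have h3 : (2 : ℝ) / ((2 * r + 3) / (2 * r * (r + 1))) = 4 * r * (r + 1) / (2 * r + 3) := by
    field_simp; ring
  rw [h3, div_le_iff₀ (by linarith)] at hsum
  nlinarith [hsum, hqle]

end Pool.Agent.KS6_96.SG
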