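import Pool.Agent.KS6_96.SG.SN4

/-!
# Sign matrices and Schur multiplier norms, V: `r_n` is strictly increasing
-/

set_option autoImplicit false

open Finset
open scoped Matrix Matrix.Norms.L2Operator

namespace Pool.Agent.KS6_96.SG

theorem isCompact_sphere (n : ℕ) : IsCompact {u : Fin n → ℝ | ∑ i, u i * u i = 1} := by
  refine IsCompact.of_isClosed_subset (isCompact_Icc (a := fun _ => (-1 : ℝ)) (b := fun _ => 1))
    (isClosed_eq (by fun_prop) continuous_const) ?_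
  intro u hu
  simp only [Set.mem_ofPred_eq] at hu
  have h : ∀ i, |u i| ≤ 1 := by
    intro i
    have h1 := Finset.single_le_sum (f := fun i => u i * u i)
      (fun i _ => mul_self_nonneg (u i)) (Finset.mem_univ i)
    simp only [hu] at h1
    exact (abs_le_one_iff_mul_self_le_one).2 h1
  rw [Set.mem_Icc]
  exact ⟨fun i => (abs_le.1 (h i)).1, fun i => (abs_le.1 (h i)).2⟩

theorem isCompact_sign (n : ℕ) :
    IsCompact {M : Fin n → Fin n → ℝ | ∀ i j, M i j = 1 ∨ M i j = -1} := by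
  refine IsCompact.of_isClosed_subset (isCompact_Icc (a := fun _ _ => (-1 : ℝ)) (b := fun _ _ => 1))
    ?_ ?_
  · have : {M : Fin n → Fin n → ℝ | ∀ i j, M i j = 1 ∨ M i j = -1} =
        ⋂ i, ⋂ j, ({M : Fin n → Fin n → ℝ | M i j = 1} ∪ {M : Fin n → Fin n → ℝ | M i j = -1}) := by
      ext M
      simp
    rw [this]
    refine isClosed_iInter fun i => isClosed_iInter fun j => ?_
    exact (isClosed_eq (by fun_prop) continuous_const).union
      (isClosed_eq (by fun_prop) continuous_const)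
  · intro M hM
    rw [Set.mem_Icc]
    refine ⟨fun i j => ?_, fun i j => ?_⟩ <;> rcases hM i j with h | h <;> rw [h] <;> norm_num

/-- Existence of a maximal tuple. -/
theorem exists_max (n : ℕ) (hn : 1 ≤ n) : ∃ (M V : Matrix (Fin n) (Fin n) ℝ) (u v : Fin n → ℝ),
    IsSign M ∧ Vᵀ * V = 1 ∧ ∑ i, u i * u i = 1 ∧ ∑ i, v i * v i = 1 ∧ 1 ≤ val M u v V ∧
    ∀ (M' V' : Matrix (Fin n) (Fin n) ℝ) (u' v' : Fin n → ℝ), IsSign M' → V'ᵀ * V' = 1 →
      ∑ i, u' i * u' i = 1 → ∑ i, v' i * v' i = 1 → val M' u' v' V' ≤ val M u v V := by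
  set K : Set ((Fin n → Fin n → ℝ) × (Fin n → Fin n → ℝ) × (Fin n → ℝ) × (Fin n → ℝ)) :=
    {M : Fin n → Fin n → ℝ | ∀ i j, M i j = 1 ∨ M i j = -1} ×ˢ
      ({V : Fin n → Fin n → ℝ | (Matrix.of V)ᵀ * (Matrix.of V) = 1} ×ˢ
        ({u : Fin n → ℝ | ∑ i, u i * u i = 1} ×ˢ {u : Fin n → ℝ | ∑ i, u i * u i = 1})) with hK
  have hKc : IsCompact K :=
    (isCompact_sign n).prod (isCompact_orth.prod ((isCompact_sphere n).prod (isCompact_sphere n)))
  set f : ((Fin n → Fin n → ℝ) × (Fin n → Fin n → ℝ) × (Fin n → ℝ) × (Fin n → ℝ)) → ℝ :=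
    fun p => ∑ i, ∑ j, p.2.2.1 i * p.1 i j * p.2.2.2 j * p.2.1 i j with hf
  have hfc : Continuous f := by
    rw [hf]; fun_prop
  set i0 : Fin n := ⟨0, by omega⟩
  have hmem : ((fun _ _ => 1, fun i j => (1 : Matrix (Fin n) (Fin n) ℝ) i j,
      Pi.single i0 1, Pi.single i0 1) :
      (Fin n → Fin n → ℝ) × (Fin n → Fin n → ℝ) × (Fin n → ℝ) × (Fin n → ℝ)) ∈ K := by
    refine ⟨fun i j => Or.inl rfl, ?_, ?_, ?_⟩
    · change (Matrix.of fun i j => (1 : Matrix (Fin n) (Fin n) ℝ) i j)ᵀ *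
        (Matrix.of fun i j => (1 : Matrix (Fin n) (Fin n) ℝ) i j) = 1
      have : (Matrix.of fun i j => (1 : Matrix (Fin n) (Fin n) ℝ) i j) = 1 := rfl
      rw [this]; simp
    · simp [Pi.single_apply]
    · simp [Pi.single_apply]
  obtain ⟨p, hp, hmax⟩ := hKc.exists_isMaxOn ⟨_, hmem⟩ hfc.continuousOn
  obtain ⟨M, V, u, v⟩ := p
  obtain ⟨hM, hV, hu, hv⟩ := hp
  refine ⟨Matrix.of M, Matrix.of V, u, v, hM, hV, hu, hv, ?_, ?_⟩
  · have h1 := hmax hmem
    have h2 : f (fun _ _ => 1, fun i j => (1 : Matrix (Fin n) (Fin n) ℝ) i j,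
      Pi.single i0 1, Pi.single i0 1) = 1 := by
      simp [hf, Pi.single_apply, Matrix.one_apply]
    have h3 : f (fun _ _ => 1, fun i j => (1 : Matrix (Fin n) (Fin n) ℝ) i j,
      Pi.single i0 1, Pi.single i0 1) ≤ f (M, V, u, v) := h1
    rw [h2] at h3
    exact h3
  · intro M' V' u' v' hM' hV' hu' hv'
    have h1 : f (fun i j => M' i j, fun i j => V' i j, u', v') ≤ f (M, V, u, v) :=
      hmax (a := (fun i j => M' i j, fun i j => V' i j, u', v')) ⟨hM', hV', hu', hv'⟩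
    exact h1

/-- The set of norms in the definition of the Schur norm is bounded by the real maximum. -/
theorem schurNorm_le {n : ℕ} {M : Matrix (Fin n) (Fin n) ℝ} {ρ : ℝ} (hρ : 0 ≤ ρ)
    (h : ∀ (V : Matrix (Fin n) (Fin n) ℝ) (u v : Fin n → ℝ), Vᵀ * V = 1 → ∑ i, u i * u i = 1 →
      ∑ i, v i * v i = 1 → val M u v V ≤ ρ) :
    schurNorm (M.map (fun t => (t : ℂ))) ≤ ρ := by
  refine csSup_le ⟨_, ⟨0, by simp, rfl⟩⟩ ?_
  rintro x ⟨A, hA, rfl⟩
  exact schur_upper hρ h hA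

theorem val_le_schurNorm {n : ℕ} {M : Matrix (Fin n) (Fin n) ℝ} {ρ : ℝ} (hρ : 0 ≤ ρ)
    (h : ∀ (V : Matrix (Fin n) (Fin n) ℝ) (u v : Fin n → ℝ), Vᵀ * V = 1 → ∑ i, u i * u i = 1 →
      ∑ i, v i * v i = 1 → val M u v V ≤ ρ) {V : Matrix (Fin n) (Fin n) ℝ} {u v : Fin n → ℝ}
    (hV : Vᵀ * V = 1) (hu : ∑ i, u i * u i = 1) (hv : ∑ i, v i * v i = 1) :
    val M u v V ≤ schurNorm (M.map (fun t => (t : ℂ))) := by
  refine (val_le_norm hu hv).trans (le_csSup ⟨ρ, ?_⟩ ⟨_, norm_orth_le hV, rfl⟩)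
  rintro x ⟨A, hA, rfl⟩
  exact schur_upper hρ h hA

/-- `r_n` is attained, and it is the maximum of the real problem. -/
theorem r_spec (n : ℕ) (hn : 1 ≤ n) : IsGreatest (signNorms n) (r n) ∧
    ∃ (M V : Matrix (Fin n) (Fin n) ℝ) (u v : Fin n → ℝ),
    IsSign M ∧ Vᵀ * V = 1 ∧ ∑ i, u i * u i = 1 ∧ ∑ i, v i * v i = 1 ∧ 1 ≤ r n ∧
    val M u v V = r n ∧
    ∀ (M' V' : Matrix (Fin n) (Fin n) ℝ) (u' v' : Fin n → ℝ), IsSign M' → V'ᵀ * V' = 1 →
      ∑ i, u' i * u' i = 1 → ∑ i, v' i * v' i = 1 → val M' u' v' V' ≤ r n := by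
  obtain ⟨M, V, u, v, hM, hV, hu, hv, h1, hmax⟩ := exists_max n hn
  set ρ := val M u v V with hρ
  have hρ0 : 0 ≤ ρ := by linarith
  have hle : ∀ M' : Matrix (Fin n) (Fin n) ℝ, IsSign M' →
      schurNorm (M'.map (fun t => (t : ℂ))) ≤ ρ := fun M' hM' =>
    schurNorm_le hρ0 fun V' u' v' hV' hu' hv' => hmax M' V' u' v' hM' hV' hu' hv'
  have hge : ρ ≤ schurNorm (M.map (fun t => (t : ℂ))) :=
    val_le_schurNorm hρ0 (fun V' u' v' hV' hu' hv' => hmax M V' u' v' hM hV' hu' hv') hV hu hv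
  have heq : schurNorm (M.map (fun t => (t : ℂ))) = ρ := le_antisymm (hle M hM) hge
  have hG : IsGreatest (signNorms n) ρ := by
    refine ⟨⟨M, hM, heq.symm⟩, ?_⟩
    rintro x ⟨M', hM', rfl⟩
    exact hle M' hM'
  have hr : r n = ρ := hG.csSup_eq
  rw [hr]
  exact ⟨hG, M, V, u, v, hM, hV, hu, hv, h1, hρ.symm, hmax⟩

/-- The theorem. -/
theorem r_lt (n : ℕ) (hn : 1 ≤ n) : r n < r (n + 1) := by
  by_contra hcon
  push Not at hcon
  obtain ⟨-, M, V, u, v, hM, hV, hu, hv, h1, hval, hmax⟩ := r_spec n hn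
  obtain ⟨-, -, -, -, -, -, -, -, -, -, -, hmax'⟩ := r_spec (n + 1) (by omega)
  have e : Fin n ⊕ Unit ≃ Fin (n + 1) := Fintype.equivOfCardEq (by simp)
  refine core h1 hM hV hu hv hval (fun u' v' hu' hv' => hmax M V u' v' hM hV hu' hv') ?_
  intro M' V' u' v' hM' hV' hu' hv'
  have h2 := hmax' (M'.submatrix e.symm e.symm) (V'.submatrix e.symm e.symm) (u' ∘ e.symm)
    (v' ∘ e.symm) (fun i j => hM' _ _) (by
      rw [Matrix.transpose_submatrix, Matrix.submatrix_mul_equiv, hV',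
        Matrix.submatrix_one_equiv]) (by
      rw [← hu']
      exact Equiv.sum_comp e.symm (fun i => u' i * u' i)) (by
      rw [← hv']
      exact Equiv.sum_comp e.symm (fun i => v' i * v' i))
  have h3 : val (M'.submatrix e.symm e.symm) (u' ∘ e.symm) (v' ∘ e.symm)
      (V'.submatrix e.symm e.symm) = val M' u' v' V' := by
    unfold val
    rw [← Equiv.sum_comp e.symm (fun i => ∑ j, u' i * M' i j * v' j * V' i j)]
    refine Finset.sum_congr rfl fun i _ => ?_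
    rw [← Equiv.sum_comp e.symm (fun j => u' (e.symm i) * M' (e.symm i) j * v' j *
      V' (e.symm i) j)]
    rfl
  rw [h3] at h2
  exact h2.trans hcon

end Pool.Agent.KS6_96.SG
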